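import Mathlib
import Pool.Agent.Helper101.Srt.Defs
set_option autoImplicit false
namespace Pool.Agent.Helper101.StackSort

theorem stackSort_nil : stackSort [] = [] := by
  rw [stackSort]; simp

theorem stackSort_ne {w : List ℕ} (h : w ≠ []) :
    stackSort w = stackSort (left w) ++ stackSort (right w) ++ [top w] := by
  rw [stackSort]; simp [h]

theorem top_append {x y : List ℕ} {m : ℕ} (hx : ∀ a ∈ x, a < m) (hy : ∀ a ∈ y, a < m) :
    top (x ++ m :: y) = m := by
  apply le_antisymm
  · have h : top (x ++ m :: y) ∈ x ++ m :: y := top_mem (by simp)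
    rcases List.mem_append.1 h with h | h
    · exact (hx _ h).le
    · rcases List.mem_cons.1 h with h | h
      · exact h.le
      · exact (hy _ h).le
  · exact le_top (by simp)

theorem takeWhile_ne_append {m : ℕ} : ∀ {x y : List ℕ}, m ∉ x →
    (x ++ m :: y).takeWhile (fun a => decide (a ≠ m)) = x ∧
    ((x ++ m :: y).dropWhile (fun a => decide (a ≠ m))).tail = y := by
  intro x y
  induction x with
  | nil => intro _; simp
  | cons b t ih =>
    intro h
    have hb : b ≠ m := fun e => h (by simp [e])
    have ht : m ∉ t := fun e => h (by simp [e])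
    have := ih ht
    simp [hb]
    simpa using this

theorem left_append {x y : List ℕ} {m : ℕ} (hx : ∀ a ∈ x, a < m) (hy : ∀ a ∈ y, a < m) :
    left (x ++ m :: y) = x := by
  unfold left
  rw [top_append hx hy]
  exact (takeWhile_ne_append (fun h => lt_irrefl _ (hx _ h))).1

theorem right_append {x y : List ℕ} {m : ℕ} (hx : ∀ a ∈ x, a < m) (hy : ∀ a ∈ y, a < m) :
    right (x ++ m :: y) = y := by
  unfold right
  rw [top_append hx hy]
  exact (takeWhile_ne_append (fun h => lt_irrefl _ (hx _ h))).2

/-- structural description of sorted words -/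
inductive Srt : List ℕ → Prop
  | nil : Srt []
  | app (x y : List ℕ) (m : ℕ) (hx : Srt x) (hy : Srt y) (hm : ∀ a ∈ x ++ y, a < m) :
      Srt (x ++ y ++ [m])

theorem stackSort_perm : ∀ (n : ℕ) (w : List ℕ), w.length ≤ n → (stackSort w).Perm w := by
  intro n
  induction n with
  | zero =>
    intro w hw
    have : w = [] := List.length_eq_zero_iff.1 (by omega)
    subst this; rw [stackSort_nil]
  | succ n ih =>
    intro w hw
    by_cases h : w = []
    · subst h; rw [stackSort_nil]
    · rw [stackSort_ne h]
      have h1 := ih (left w) (by have := left_length_lt h; omega)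
      have h2 := ih (right w) (by have := right_length_lt h; omega)
      conv_rhs => rw [eq_split h]
      have h3 : (stackSort (left w) ++ stackSort (right w) ++ [top w]).Perm
          (left w ++ right w ++ [top w]) := (h1.append h2).append_right _
      refine h3.trans ?_
      rw [List.append_assoc]
      exact (List.Perm.refl _).append (List.perm_append_singleton _ _)

theorem stackSort_srt : ∀ (n : ℕ) (w : List ℕ), w.length ≤ n → w.Nodup → Srt (stackSort w) := by
  intro n
  induction n with
  | zero =>
    intro w hw _
    have : w = [] := List.length_eq_zero_iff.1 (by omega)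
    subst this; rw [stackSort_nil]; exact Srt.nil
  | succ n ih =>
    intro w hw hnd
    by_cases h : w = []
    · subst h; rw [stackSort_nil]; exact Srt.nil
    · rw [stackSort_ne h]
      have hs := eq_split h
      rw [hs] at hnd
      have hnd2 := List.nodup_append.1 hnd
      have h1 := ih (left w) (by have := left_length_lt h; omega) hnd2.1
      have h2 := ih (right w) (by have := right_length_lt h; omega) (List.nodup_cons.1 hnd2.2.1).2
      refine Srt.app _ _ _ h1 h2 ?_
      intro a ha
      have ha' : a ∈ left w ∨ a ∈ right w := by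
        rcases List.mem_append.1 ha with ha | ha
        · exact Or.inl ((stackSort_perm _ _ le_rfl).mem_iff.1 ha)
        · exact Or.inr ((stackSort_perm _ _ le_rfl).mem_iff.1 ha)
      have hmem : a ∈ w := by
        rw [hs]
        rcases ha' with ha | ha
        · exact List.mem_append_left _ ha
        · exact List.mem_append_right _ (List.mem_cons_of_mem _ ha)
      refine lt_of_le_of_ne (le_top hmem) ?_
      intro e
      rcases ha' with ha | ha
      · exact hnd2.2.2 a ha (top w) (by simp) e
      · exact (List.nodup_cons.1 hnd2.2.1).1 (e ▸ ha)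

theorem srt_image {w : List ℕ} (h : Srt w) (hnd : w.Nodup) :
    ∃ v : List ℕ, v.Perm w ∧ stackSort v = w := by
  induction h with
  | nil => exact ⟨[], List.Perm.refl _, stackSort_nil⟩
  | app x y m hx hy hm ihx ihy =>
    have hnd1 : (x ++ y).Nodup := (List.nodup_append.1 hnd).1
    have hnd2 := List.nodup_append.1 hnd1
    obtain ⟨vx, px, sx⟩ := ihx hnd2.1
    obtain ⟨vy, py, sy⟩ := ihy hnd2.2.1
    have hvx : ∀ a ∈ vx, a < m := fun a ha => hm a (List.mem_append_left _ (px.mem_iff.1 ha))
    have hvy : ∀ a ∈ vy, a < m := fun a ha => hm a (List.mem_append_right _ (py.mem_iff.1 ha))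
    refine ⟨vx ++ m :: vy, ?_, ?_⟩
    · have h1 : (vx ++ m :: vy).Perm (x ++ m :: y) := px.append (py.cons m)
      refine h1.trans ?_
      rw [List.append_assoc]
      exact (List.Perm.refl _).append (List.perm_append_singleton _ _).symm
    · rw [stackSort_ne (by simp), left_append hvx hvy, right_append hvx hvy,
        top_append hvx hvy, sx, sy]

theorem image_eq (n : ℕ) : stackSort '' Sn n = {w | w ∈ Sn n ∧ Srt w} := by
  have hnd : (List.range' 1 n).Nodup := List.nodup_range' ..
  ext w
  constructor
  · rintro ⟨v, hv, rfl⟩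
    have hv' : v.Perm (List.range' 1 n) := hv
    exact ⟨(stackSort_perm _ v le_rfl).trans hv', stackSort_srt _ v le_rfl (hv'.nodup_iff.2 hnd)⟩
  · rintro ⟨h1, h2⟩
    have h1' : w.Perm (List.range' 1 n) := h1
    obtain ⟨v, hp, hs⟩ := srt_image h2 (h1'.nodup_iff.2 hnd)
    exact ⟨v, hp.trans h1', hs⟩

/-! ### structure of sorted words -/

theorem srt_append_singleton_iff {w : List ℕ} {m : ℕ} :
    Srt (w ++ [m]) ↔ (∀ a ∈ w, a < m) ∧ ∃ x y, Srt x ∧ Srt y ∧ w = x ++ y := by
  constructor
  · intro h
    generalize hv : w ++ [m] = v at h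
    cases h with
    | nil => simp at hv
    | app x y m' hx hy hm =>
      have h1 := List.append_inj' hv rfl
      have h2 : m = m' := by simpa using h1.2
      subst h2
      rw [h1.1]
      exact ⟨hm, x, y, hx, hy, rfl⟩
  · rintro ⟨h1, x, y, hx, hy, rfl⟩
    exact Srt.app x y m hx hy h1

theorem eq_append_singleton {w : List ℕ} (h : w ≠ []) : ∃ v m, w = v ++ [m] :=
  ⟨w.dropLast, w.getLast h, (List.dropLast_append_getLast h).symm⟩

/-- suffixes of sorted words are sorted -/
theorem srt_suffix : ∀ (n : ℕ) (x y : List ℕ), (x ++ y).length ≤ n → Srt (x ++ y) → Srt y := by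
  intro n
  induction n with
  | zero =>
    intro x y hn _
    have : y = [] := by simp at hn; exact hn.2
    subst this; exact Srt.nil
  | succ n ih =>
    intro x y hn h
    by_cases hy : y = []
    · subst hy; exact Srt.nil
    obtain ⟨v, m, rfl⟩ := eq_append_singleton hy
    rw [← List.append_assoc] at h
    obtain ⟨h1, p, q, hp, hq, he⟩ := srt_append_singleton_iff.1 h
    rw [srt_append_singleton_iff]
    refine ⟨fun a ha => h1 a (List.mem_append_right _ ha), ?_⟩
    have hlen : (p ++ q).length ≤ n := by rw [← he]; simp at hn ⊢; omega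
    rcases List.append_eq_append_iff.1 he with ⟨c, hc1, hc2⟩ | ⟨c, hc1, hc2⟩
    · -- p = x ++ c, v = c ++ q
      refine ⟨c, q, ?_, hq, hc2⟩
      apply ih x c
      · rw [← hc1]; simp at hlen ⊢; omega
      · rw [← hc1]; exact hp
    · -- x = p ++ c, q = c ++ v
      refine ⟨[], v, Srt.nil, ?_, rfl⟩
      apply ih c v
      · rw [← hc2]; simp at hlen ⊢; omega
      · rw [← hc2]; exact hq

theorem srt_right {x y : List ℕ} (h : Srt (x ++ y)) : Srt y := srt_suffix _ x y le_rfl h

/-- gluing lemma -/
theorem srt_glue : ∀ (n : ℕ) (x v y : List ℕ), (x ++ v ++ y).length ≤ n → v ≠ [] →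
    Srt (x ++ v) → Srt (v ++ y) → Srt (x ++ v ++ y) := by
  intro n
  induction n with
  | zero =>
    intro x v y hn hv
    exact absurd (List.length_eq_zero_iff.1 (by simp at hn; simp [hn])) hv
  | succ n ih =>
    intro x v y hn hv h1 h2
    by_cases hy : y = []
    · subst hy; simpa using h1
    obtain ⟨y', m, rfl⟩ := eq_append_singleton hy
    rw [← List.append_assoc] at h2
    obtain ⟨hm, p, q, hp, hq, he⟩ := srt_append_singleton_iff.1 h2
    rw [← List.append_assoc, srt_append_singleton_iff]
    have hlast : ∀ a ∈ x ++ v, a < m := by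
      obtain ⟨v', l, hvl⟩ := eq_append_singleton hv
      have hl : l < m := hm l (by rw [hvl]; simp)
      rw [hvl, ← List.append_assoc] at h1
      obtain ⟨h3, -⟩ := srt_append_singleton_iff.1 h1
      intro a ha
      rw [hvl, ← List.append_assoc] at ha
      rcases List.mem_append.1 ha with ha | ha
      · exact (h3 a ha).trans hl
      · have : a = l := by simpa using ha
        rw [this]; exact hl
    constructor
    · intro a ha
      rcases List.mem_append.1 ha with ha | ha
      · exact hlast a ha
      · exact hm a (List.mem_append_right _ ha)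
    · have hlen : (x ++ v ++ y').length ≤ n := by simp at hn ⊢; omega
      rcases List.append_eq_append_iff.1 he with ⟨c, hc1, hc2⟩ | ⟨c, hc1, hc2⟩
      · -- p = v ++ c, y' = c ++ q
        refine ⟨x ++ p, q, ?_, hq, ?_⟩
        · rw [hc1, ← List.append_assoc]
          apply ih x v c _ hv h1
          · rw [← hc1]; exact hp
          · rw [hc2] at hlen; simp at hlen ⊢; omega
        · rw [hc1, hc2]; simp
      · -- v = p ++ c, q = c ++ y'
        by_cases hc : c = []
        · subst hc
          have e1 : v = p := by simpa using hc1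
          have e2 : q = y' := by simpa using hc2
          refine ⟨x ++ v, q, h1, hq, ?_⟩
          rw [e2]
        · refine ⟨[], x ++ v ++ y', Srt.nil, ?_, by simp⟩
          have e : x ++ v ++ y' = (x ++ p) ++ c ++ y' := by rw [hc1]; simp
          rw [e]
          apply ih (x ++ p) c y' _ hc
          · rw [List.append_assoc, ← hc1]; exact h1
          · rw [← hc2]; exact hq
          · rw [← e]; exact hlen

/-- a word which is not sorted splits in at most one way into two sorted words -/
theorem split_unique {p q p' q' : List ℕ} (hp' : Srt p') (hq : Srt q)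
    (he : p ++ q = p' ++ q') (hns : ¬ Srt (p ++ q)) (hle : p.length ≤ p'.length) :
    p = p' ∧ q = q' := by
  rcases List.append_eq_append_iff.1 he with ⟨c, hc1, hc2⟩ | ⟨c, hc1, hc2⟩
  · -- p' = p ++ c, q = c ++ q'
    by_cases hc : c = []
    · subst hc; simp at hc1 hc2; exact ⟨hc1.symm, hc2⟩
    · exfalso
      apply hns
      have := srt_glue _ p c q' le_rfl hc (hc1 ▸ hp') (hc2 ▸ hq)
      rw [hc2, ← List.append_assoc]; exact this
  · have : c = [] := by
      have := congrArg List.length hc1
      simp at this
      exact List.length_eq_zero_iff.1 (by omega)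
    subst this; simp at hc1 hc2; exact ⟨hc1, hc2.symm⟩

theorem split_unique' {p q p' q' : List ℕ} (hp : Srt p) (hq : Srt q) (hp' : Srt p')
    (hq' : Srt q') (he : p ++ q = p' ++ q') (hns : ¬ Srt (p ++ q)) : p = p' ∧ q = q' := by
  rcases le_total p.length p'.length with h | h
  · exact split_unique hp' hq he hns h
  · have := split_unique hp hq' he.symm (he ▸ hns) h
    exact ⟨this.1.symm, this.2.symm⟩

/-- order preserving renaming of the letters -/
theorem Srt.map {f : ℕ → ℕ} {s : Set ℕ} (hf : StrictMonoOn f s) {w : List ℕ} (h : Srt w)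
    (hw : ∀ a ∈ w, a ∈ s) : Srt (w.map f) := by
  induction h with
  | nil => simpa using Srt.nil
  | app x y m hx hy hm ihx ihy =>
    have hxs : ∀ a ∈ x, a ∈ s := fun a ha => hw a (by simp [ha])
    have hys : ∀ a ∈ y, a ∈ s := fun a ha => hw a (by simp [ha])
    have hms : m ∈ s := hw m (by simp)
    rw [List.map_append, List.map_append]
    refine Srt.app _ _ _ (ihx hxs) (ihy hys) ?_
    intro a ha
    rw [← List.map_append] at ha
    obtain ⟨b, hb, rfl⟩ := List.mem_map.1 ha
    refine hf ?_ hms (hm b hb)
    rcases List.mem_append.1 hb with hb | hb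
    · exact hxs b hb
    · exact hys b hb

end Pool.Agent.Helper101.StackSort
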