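import Mathlib
import Pool.Agent.Helper101.Srt.Words
set_option autoImplicit false
namespace Pool.Agent.Helper101.StackSort

open Finset
open scoped Classical

/-- words with distinct letters whose set of letters is `A` -/
noncomputable def W (A : Finset ℕ) : Finset (List ℕ) := A.toList.permutations.toFinset

theorem mem_W {A : Finset ℕ} {w : List ℕ} : w ∈ W A ↔ w.Nodup ∧ w.toFinset = A := by
  unfold W
  rw [List.mem_toFinset, List.mem_permutations]
  constructor
  · intro h
    refine ⟨h.nodup_iff.2 A.nodup_toList, ?_⟩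
    rw [List.toFinset_eq_of_perm _ _ h, A.toList_toFinset]
  · rintro ⟨h1, h2⟩
    apply List.perm_of_nodup_nodup_toFinset_eq h1 A.nodup_toList
    rw [h2, A.toList_toFinset]

/-- nonempty sorted words -/
def S (w : List ℕ) : Prop := w ≠ [] ∧ Srt w

/-- number of nonempty sorted words on `A` -/
noncomputable def cnt (A : Finset ℕ) : ℕ := ((W A).filter S).card

/-- pairs of words whose concatenation is a word on `A` -/
noncomputable def PP (A : Finset ℕ) : Finset (List ℕ × List ℕ) :=
  (W A).biUnion fun w => (range (w.length + 1)).image fun i => (w.take i, w.drop i)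

theorem mem_PP {A : Finset ℕ} {p : List ℕ × List ℕ} : p ∈ PP A ↔ p.1 ++ p.2 ∈ W A := by
  unfold PP
  simp only [mem_biUnion, mem_image, mem_range]
  constructor
  · rintro ⟨w, hw, i, _, rfl⟩
    simpa using hw
  · intro h
    refine ⟨p.1 ++ p.2, h, p.1.length, by simp, ?_⟩
    simp

/-- pairs of nonempty sorted words -/
noncomputable def Pr (A : Finset ℕ) : ℕ := ((PP A).filter fun p => S p.1 ∧ S p.2).card

/-- pairs of nonempty sorted words with sorted concatenation -/
noncomputable def BtSet (A : Finset ℕ) : Finset (List ℕ × List ℕ) :=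
  (PP A).filter fun p => (S p.1 ∧ S p.2) ∧ Srt (p.1 ++ p.2)

noncomputable def Bt (A : Finset ℕ) : ℕ := (BtSet A).card

theorem append_mem_W {A : Finset ℕ} {p q : List ℕ} : p ++ q ∈ W A ↔
    p.toFinset ⊆ A ∧ p ∈ W p.toFinset ∧ q ∈ W (A \ p.toFinset) := by
  rw [mem_W, mem_W, mem_W, List.nodup_append, List.toFinset_append]
  constructor
  · rintro ⟨⟨h1, h2, h3⟩, h4⟩
    refine ⟨?_, ⟨h1, rfl⟩, h2, ?_⟩
    · rw [← h4]; exact subset_union_left
    · rw [← h4]
      ext a
      simp only [mem_sdiff, mem_union, List.mem_toFinset]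
      constructor
      · intro h; exact ⟨Or.inr h, fun hp => h3 a hp a h rfl⟩
      · rintro ⟨h | h, h'⟩
        · exact absurd h h'
        · exact h
  · rintro ⟨h1, ⟨h2, -⟩, h3, h4⟩
    refine ⟨⟨h2, h3, ?_⟩, ?_⟩
    · intro a ha b hb hab
      subst hab
      have : a ∈ q.toFinset := List.mem_toFinset.2 hb
      rw [h4, mem_sdiff, List.mem_toFinset] at this
      exact this.2 ha
    · rw [h4]; exact union_sdiff_of_subset h1

theorem Pr_eq (A : Finset ℕ) : Pr A = ∑ X ∈ A.powerset, cnt X * cnt (A \ X) := by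
  unfold Pr cnt
  rw [card_eq_sum_card_fiberwise (f := fun p : List ℕ × List ℕ => p.1.toFinset)
    (t := A.powerset)]
  · apply sum_congr rfl
    intro X hX
    rw [mem_powerset] at hX
    rw [← card_product]
    congr 1
    ext ⟨p, q⟩
    simp only [mem_filter, mem_PP, mem_product]
    rw [append_mem_W]
    constructor
    · rintro ⟨⟨⟨h1, h2, h3⟩, h4, h5⟩, h6⟩
      subst h6
      exact ⟨⟨h2, h4⟩, h3, h5⟩
    · rintro ⟨⟨h2, h4⟩, h3, h5⟩
      have h6 : p.toFinset = X := (mem_W.1 h2).2
      subst h6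
      exact ⟨⟨⟨hX, h2, h3⟩, h4, h5⟩, rfl⟩
  · intro p hp
    simp only [coe_filter, Set.mem_ofPred_eq, mem_PP] at hp
    simp only [coe_powerset, Set.mem_preimage, Set.mem_powerset_iff, coe_subset]
    exact (append_mem_W.1 hp.1).1

/-- concatenation of two (possibly empty) sorted words -/
def F2 (w : List ℕ) : Prop := ∃ x y, Srt x ∧ Srt y ∧ w = x ++ y

theorem append_singleton_mem_W {A : Finset ℕ} {m : ℕ} (hm : ∀ a ∈ A, a < m) {w : List ℕ} :
    w ++ [m] ∈ W (insert m A) ↔ w ∈ W A := by
  have hmA : m ∉ A := fun h => lt_irrefl _ (hm m h)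
  rw [mem_W, mem_W, List.nodup_append, List.toFinset_append]
  constructor
  · rintro ⟨⟨h1, h2, h3⟩, h4⟩
    refine ⟨h1, ?_⟩
    have hmw : m ∉ w := fun h => h3 m h m (by simp) rfl
    ext a
    have := congrArg (fun B => a ∈ B) h4
    simp at this
    rw [List.mem_toFinset]
    by_cases ha : a = m
    · subst ha; exact ⟨fun h => absurd h hmw, fun h => absurd h hmA⟩
    · simpa [ha] using this
  · rintro ⟨h1, h2⟩
    have hmw : m ∉ w := fun h => hmA (by rw [← h2]; exact List.mem_toFinset.2 h)
    refine ⟨⟨h1, List.nodup_singleton _, ?_⟩, ?_⟩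
    · intro a ha b hb hab
      have : b = m := by simpa using hb
      subst this; subst hab; exact hmw ha
    · rw [h2]; ext a; simp

theorem srt_mem_last {A : Finset ℕ} {m : ℕ} (hm : ∀ a ∈ A, a < m) {w : List ℕ}
    (hw : w ∈ W (insert m A)) (hs : S w) : ∃ v, w = v ++ [m] ∧ v ∈ W A ∧ F2 v := by
  obtain ⟨v, l, rfl⟩ := eq_append_singleton hs.1
  obtain ⟨h1, h2⟩ := srt_append_singleton_iff.1 hs.2
  have hml : m ∈ v ++ [l] := by
    rw [← List.mem_toFinset, (mem_W.1 hw).2]; exact mem_insert_self _ _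
  have hl : l = m := by
    rcases List.mem_append.1 hml with h | h
    · exfalso
      have h3 := h1 m h
      have h4 : l ∈ insert m A := by
        rw [← (mem_W.1 hw).2, List.mem_toFinset]; simp
      rcases mem_insert.1 h4 with h5 | h5
      · omega
      · exact absurd (hm l h5) (by omega)
    · exact (by simpa using h : m = l).symm
  subst hl
  exact ⟨v, rfl, (append_singleton_mem_W hm).1 hw, h2⟩

theorem cnt_insert {A : Finset ℕ} {m : ℕ} (hm : ∀ a ∈ A, a < m) :
    cnt (insert m A) = ((W A).filter F2).card := by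
  unfold cnt
  symm
  apply card_bij (fun w _ => w ++ [m])
  · intro w hw
    rw [mem_filter] at hw ⊢
    refine ⟨(append_singleton_mem_W hm).2 hw.1, by simp, ?_⟩
    rw [srt_append_singleton_iff]
    refine ⟨?_, hw.2⟩
    intro a ha
    apply hm
    rw [← (mem_W.1 hw.1).2, List.mem_toFinset]; exact ha
  · intro w _ w' _ h
    exact (List.append_inj' h rfl).1
  · intro w hw
    rw [mem_filter] at hw
    obtain ⟨v, h1, h2, h3⟩ := srt_mem_last hm hw.1 hw.2
    exact ⟨v, mem_filter.2 ⟨h2, h3⟩, h1.symm⟩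

theorem card_srt (A : Finset ℕ) :
    ((W A).filter Srt).card = (if A = ∅ then 1 else 0) + cnt A := by
  by_cases hA : A = ∅
  · subst hA
    have h1 : W ∅ = {[]} := by
      ext w
      rw [mem_W, mem_singleton]
      constructor
      · rintro ⟨-, h⟩; simpa using h
      · rintro rfl; simp
    unfold cnt
    rw [h1, filter_singleton, filter_singleton, if_pos Srt.nil,
      if_neg (show ¬ S [] from fun h => h.1 rfl)]
    simp
  · rw [if_neg hA, zero_add]
    unfold cnt
    congr 1
    apply filter_congr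
    intro w hw
    have : w ≠ [] := by
      rintro rfl
      apply hA
      simpa using (mem_W.1 hw).2.symm
    simp [S, this]

theorem srt_imp_F2 {w : List ℕ} (h : Srt w) : F2 w := ⟨[], w, Srt.nil, h, rfl⟩

theorem R1 {A : Finset ℕ} {m : ℕ} (hm : ∀ a ∈ A, a < m) :
    cnt (insert m A) + Bt A = (if A = ∅ then 1 else 0) + cnt A + Pr A := by
  rw [cnt_insert hm, ← card_srt]
  have h1 : ((W A).filter F2).card =
      ((W A).filter Srt).card + ((W A).filter fun w => F2 w ∧ ¬ Srt w).card := by
    rw [← card_filter_add_card_filter_not (s := (W A).filter F2) (p := Srt), filter_filter,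
      filter_filter]
    congr 2
    apply filter_congr
    intro w _
    exact ⟨fun h => h.2, fun h => ⟨srt_imp_F2 h, h⟩⟩
  have h2 : Pr A = Bt A + ((PP A).filter fun p => (S p.1 ∧ S p.2) ∧ ¬ Srt (p.1 ++ p.2)).card := by
    unfold Pr Bt BtSet
    rw [← card_filter_add_card_filter_not (s := (PP A).filter fun p => S p.1 ∧ S p.2)
      (p := fun p => Srt (p.1 ++ p.2)), filter_filter, filter_filter]
  have h3 : ((PP A).filter fun p => (S p.1 ∧ S p.2) ∧ ¬ Srt (p.1 ++ p.2)).card =
      ((W A).filter fun w => F2 w ∧ ¬ Srt w).card := by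
    apply card_bij (fun p _ => p.1 ++ p.2)
    · intro p hp
      rw [mem_filter, mem_PP] at hp
      rw [mem_filter]
      exact ⟨hp.1, ⟨p.1, p.2, hp.2.1.1.2, hp.2.1.2.2, rfl⟩, hp.2.2⟩
    · intro p hp p' hp' h
      rw [mem_filter, mem_PP] at hp hp'
      have := split_unique' hp.2.1.1.2 hp.2.1.2.2 hp'.2.1.1.2 hp'.2.1.2.2 h hp.2.2
      exact Prod.ext this.1 this.2
    · intro w hw
      rw [mem_filter] at hw
      obtain ⟨hw1, ⟨x, y, hx, hy, rfl⟩, hns⟩ := hw
      refine ⟨(x, y), ?_, rfl⟩
      rw [mem_filter, mem_PP]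
      refine ⟨hw1, ⟨⟨?_, hx⟩, ?_, hy⟩, hns⟩
      · rintro rfl; exact hns hy
      · rintro rfl; exact hns (by simpa using hx)
  omega

theorem R2 {A : Finset ℕ} {m : ℕ} (hm : ∀ a ∈ A, a < m) :
    Bt (insert m A) ≤ cnt A + Pr A + ∑ X ∈ A.powerset, Bt X * cnt (A \ X) := by
  set Q1 : Finset (List ℕ × List ℕ) := ((W A).filter S).image (fun x => (x, [])) with hQ1
  set Q2 : Finset (List ℕ × List ℕ) := (PP A).filter (fun p => S p.1 ∧ S p.2) with hQ2
  set Q3 : Finset (List ℕ × List ℕ) := A.powerset.biUnion (fun X =>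
    (BtSet X ×ˢ (W (A \ X)).filter S).image (fun t => (t.1.1, t.1.2 ++ t.2))) with hQ3
  have hc1 : Q1.card ≤ cnt A := card_image_le
  have hc2 : Q2.card = Pr A := rfl
  have hc3 : Q3.card ≤ ∑ X ∈ A.powerset, Bt X * cnt (A \ X) := by
    refine card_biUnion_le.trans (sum_le_sum fun X _ => ?_)
    refine card_image_le.trans ?_
    rw [card_product]; rfl
  have hsub : BtSet (insert m A) ⊆ (Q1 ∪ Q2 ∪ Q3).image (fun p => (p.1, p.2 ++ [m])) := by
    rintro ⟨x, v⟩ hp
    unfold BtSet at hp
    rw [mem_filter, mem_PP] at hp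
    obtain ⟨hW, ⟨hx, hv⟩, hs⟩ := hp
    simp only at hW hx hv hs
    obtain ⟨u, hu1, hu2, p, q, hpS, hqS, hu3⟩ := srt_mem_last hm hW
      ⟨by intro h; exact hx.1 (List.append_eq_nil_iff.1 h).1, hs⟩
    obtain ⟨v', l, rfl⟩ := eq_append_singleton hv.1
    rw [← List.append_assoc] at hu1
    have h1 := List.append_inj' hu1 rfl
    have hl : l = m := by simpa using h1.2
    subst hl
    rw [← h1.1] at hu2 hu3
    rw [mem_image]
    refine ⟨(x, v'), ?_, rfl⟩
    rw [mem_union, mem_union]
    by_cases hv' : v' = []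
    · left; left
      subst hv'
      rw [hQ1, mem_image]
      exact ⟨x, mem_filter.2 ⟨by simpa using hu2, hx⟩, rfl⟩
    · by_cases hsv : Srt v'
      · left; right
        rw [hQ2, mem_filter, mem_PP]
        exact ⟨hu2, hx, hv', hsv⟩
      · right
        rcases List.append_eq_append_iff.1 hu3 with ⟨c, hc1, hc2⟩ | ⟨c, hc1, hc2⟩
        · -- p = x ++ c, v' = c ++ q
          have hcne : c ≠ [] := by rintro rfl; exact hsv (by simpa [hc2] using hqS)
          have hqne : q ≠ [] := by
            rintro rfl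
            apply hsv
            rw [hc2, List.append_nil]
            exact srt_right (hc1 ▸ hpS)
          rw [hc2, ← List.append_assoc] at hu2
          have h2 := append_mem_W.1 hu2
          rw [hQ3, mem_biUnion]
          refine ⟨(x ++ c).toFinset, mem_powerset.2 h2.1, ?_⟩
          rw [mem_image]
          refine ⟨((x, c), q), ?_, by rw [hc2]⟩
          rw [mem_product]
          constructor
          · show (x, c) ∈ BtSet _
            unfold BtSet
            rw [mem_filter, mem_PP]
            exact ⟨h2.2.1, ⟨hx, hcne, srt_right (hc1 ▸ hpS)⟩, hc1 ▸ hpS⟩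
          · exact mem_filter.2 ⟨h2.2.2, hqne, hqS⟩
        · exfalso
          apply hsv
          exact srt_right (hc2 ▸ hqS)
  have h := (card_le_card hsub).trans card_image_le
  have h' : (Q1 ∪ Q2 ∪ Q3).card ≤ Q1.card + Q2.card + Q3.card :=
    (card_union_le _ _).trans (Nat.add_le_add_right (card_union_le _ _) _)
  unfold Bt at *
  omega

theorem R3 {A : Finset ℕ} (hA : 2 ≤ A.card) : cnt A ≤ ∑ f ∈ A, cnt (A.erase f) := by
  have hsub : (W A).filter S ⊆ A.biUnion (fun f =>
      ((W (A.erase f)).filter S).image (fun t => f :: t)) := by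
    intro w hw
    rw [mem_filter] at hw
    obtain ⟨hW, hne, hs⟩ := hw
    cases w with
    | nil => exact absurd rfl hne
    | cons f t =>
      have h1 := mem_W.1 hW
      have hfA : f ∈ A := by rw [← h1.2]; simp
      have hnd := List.nodup_cons.1 h1.1
      have htA : t.toFinset = A.erase f := by
        rw [← h1.2, List.toFinset_cons, erase_insert]
        rw [List.mem_toFinset]; exact hnd.1
      rw [mem_biUnion]
      refine ⟨f, hfA, ?_⟩
      rw [mem_image]
      refine ⟨t, ?_, rfl⟩
      rw [mem_filter]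
      refine ⟨mem_W.2 ⟨hnd.2, htA⟩, ?_, ?_⟩
      · rintro rfl
        have : (A.erase f).card = 0 := by rw [← htA]; simp
        rw [card_erase_of_mem hfA] at this
        omega
      · exact srt_right (x := [f]) hs
  unfold cnt
  refine (card_le_card hsub).trans (card_biUnion_le.trans (sum_le_sum fun f _ => card_image_le))

theorem not_srt_swap {p q : List ℕ} (hp : p ≠ []) (hq : q ≠ []) (h : Srt (p ++ q)) :
    ¬ Srt (q ++ p) := by
  intro h'
  obtain ⟨p', l, rfl⟩ := eq_append_singleton hp
  obtain ⟨q', k, rfl⟩ := eq_append_singleton hq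
  rw [← List.append_assoc] at h h'
  have h1 := (srt_append_singleton_iff.1 h).1 l (by simp)
  have h2 := (srt_append_singleton_iff.1 h').1 k (by simp)
  omega

theorem perm_mem_W {A : Finset ℕ} {v w : List ℕ} (h : v.Perm w) (hw : w ∈ W A) : v ∈ W A := by
  rw [mem_W] at hw ⊢
  exact ⟨h.nodup_iff.2 hw.1, by rw [List.toFinset_eq_of_perm _ _ h]; exact hw.2⟩

theorem R6 (A : Finset ℕ) : 2 * Bt A ≤ Pr A := by
  have h2 : Pr A = Bt A + ((PP A).filter fun p => (S p.1 ∧ S p.2) ∧ ¬ Srt (p.1 ++ p.2)).card := by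
    unfold Pr Bt BtSet
    rw [← card_filter_add_card_filter_not (s := (PP A).filter fun p => S p.1 ∧ S p.2)
      (p := fun p => Srt (p.1 ++ p.2)), filter_filter, filter_filter]
  have h3 : Bt A ≤ ((PP A).filter fun p => (S p.1 ∧ S p.2) ∧ ¬ Srt (p.1 ++ p.2)).card := by
    unfold Bt
    apply card_le_card_of_injOn (fun p => (p.2, p.1))
    · intro p hp
      have hp' : p ∈ BtSet A := hp
      unfold BtSet at hp'
      rw [mem_filter, mem_PP] at hp'
      show (p.2, p.1) ∈ (PP A).filter _
      rw [mem_filter, mem_PP]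
      exact ⟨perm_mem_W List.perm_append_comm hp'.1, ⟨hp'.2.1.2, hp'.2.1.1⟩,
        not_srt_swap hp'.2.1.1.1 hp'.2.1.2.1 hp'.2.2⟩
    · intro p _ p' _ h
      simp only [Prod.mk.injEq] at h
      exact Prod.ext h.2 h.1
  omega

theorem srt_two {a b : ℕ} : Srt [a, b] ↔ a < b := by
  have := @srt_append_singleton_iff [a] b
  rw [List.singleton_append] at this
  rw [this]
  constructor
  · rintro ⟨h, -⟩; exact h a (by simp)
  · intro h
    refine ⟨by simpa using h, [], [a], Srt.nil, ?_, rfl⟩
    exact Srt.app [] [] a Srt.nil Srt.nil (by simp)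

theorem srt_one (a : ℕ) : Srt [a] := Srt.app [] [] a Srt.nil Srt.nil (by simp)

theorem not_srt_2103 : ¬ Srt [2, 1, 0, 3] := by
  intro h
  have h' : Srt ([2, 1, 0] ++ [3]) := h
  obtain ⟨-, x, y, hx, hy, he⟩ := srt_append_singleton_iff.1 h'
  have hlast : ∀ (u : List ℕ) (a : ℕ), Srt (u ++ [a]) → ∀ b ∈ u, b < a :=
    fun u a h => (srt_append_singleton_iff.1 h).1
  match x, he with
  | [], he =>
    have : y = [2, 1, 0] := by simpa using he.symm
    subst this
    have := hlast [2, 1] 0 hy 2 (by simp)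
    omega
  | [a], he =>
    simp only [List.cons_append, List.nil_append, List.cons.injEq] at he
    obtain ⟨rfl, rfl⟩ := he
    have := hlast [1] 0 hy 1 (by simp)
    omega
  | [a, b], he =>
    simp only [List.cons_append, List.nil_append, List.cons.injEq] at he
    obtain ⟨rfl, rfl, rfl⟩ := he
    have := hlast [2] 1 hx 2 (by simp)
    omega
  | a :: b :: c :: t, he =>
    simp only [List.cons_append, List.cons.injEq] at he
    obtain ⟨rfl, rfl, rfl, he⟩ := he
    have ht : t = [] := (List.append_eq_nil_iff.1 he.symm).1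
    subst ht
    have := hlast [2, 1] 0 hx 2 (by simp)
    omega

theorem R6s : 2 * Bt (range 4) < Pr (range 4) := by
  set A : Finset ℕ := range 4 with hA
  have h2 : Pr A = Bt A + ((PP A).filter fun p => (S p.1 ∧ S p.2) ∧ ¬ Srt (p.1 ++ p.2)).card := by
    unfold Pr Bt BtSet
    rw [← card_filter_add_card_filter_not (s := (PP A).filter fun p => S p.1 ∧ S p.2)
      (p := fun p => Srt (p.1 ++ p.2)), filter_filter, filter_filter]
  set T := (PP A).filter fun p => (S p.1 ∧ S p.2) ∧ ¬ Srt (p.1 ++ p.2) with hT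
  have hS103 : S [1, 0, 3] := by
    refine ⟨by simp, ?_⟩
    exact Srt.app [1] [0] 3 (srt_one 1) (srt_one 0) (by simp)
  have hmemT : (([2], [1, 0, 3]) : List ℕ × List ℕ) ∈ T := by
    rw [hT, mem_filter, mem_PP]
    refine ⟨?_, ⟨⟨by simp, srt_one 2⟩, hS103⟩, not_srt_2103⟩
    rw [mem_W]
    constructor
    · simp
    · rw [hA]; ext a; simp; omega
  have h3 : Bt A < T.card := by
    have hsub : (BtSet A).image (fun p => (p.2, p.1)) ⊆ T.erase ([2], [1, 0, 3]) := by
      intro p hp
      rw [mem_image] at hp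
      obtain ⟨p, hp, rfl⟩ := hp
      unfold BtSet at hp
      rw [mem_filter, mem_PP] at hp
      rw [mem_erase, hT, mem_filter, mem_PP]
      refine ⟨?_, perm_mem_W List.perm_append_comm hp.1, ⟨hp.2.1.2, hp.2.1.1⟩,
        not_srt_swap hp.2.1.1.1 hp.2.1.2.1 hp.2.2⟩
      intro he
      simp only [Prod.mk.injEq] at he
      have hs := hp.2.2
      rw [he.1, he.2] at hs
      have := (srt_append_singleton_iff.1 (show Srt ([1, 0, 3] ++ [2]) from hs)).1 3 (by simp)
      omega
    have hc := card_le_card hsub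
    rw [card_erase_of_mem hmemT, card_image_of_injective] at hc
    · have : 0 < T.card := card_pos.2 ⟨_, hmemT⟩
      unfold Bt
      omega
    · intro p p' h
      simp only [Prod.mk.injEq] at h
      exact Prod.ext h.2 h.1
  omega

end Pool.Agent.Helper101.StackSort
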