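import Mathlib
set_option autoImplicit false
open Filter Topology
namespace Pool.Agent.Helper101.Srt

open Polynomial in
theorem kar_poly (d : ℕ → ℝ)
    (hs : ∀ x : ℝ, 0 < x → x < 1 → Summable (fun n => d n * x ^ n))
    (hlim : Tendsto (fun x : ℝ => (1 - x) * ∑' n, d n * x ^ n) (𝓝[<] 1) (𝓝 1)) (p : ℝ[X]) :
    (∀ x : ℝ, 0 < x → x < 1 → Summable (fun n => d n * x ^ n * p.eval (x ^ n))) ∧
    Tendsto (fun x : ℝ => (1 - x) * ∑' n, d n * x ^ n * p.eval (x ^ n)) (𝓝[<] 1)
      (𝓝 (∫ t in (0 : ℝ)..1, p.eval t)) := by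
  have hev : ∀ᶠ x : ℝ in 𝓝[<] 1, 0 < x ∧ x < 1 := by
    filter_upwards [Ioo_mem_nhdsLT (show (0 : ℝ) < 1 by norm_num)] with x hx
    exact hx
  induction p using Polynomial.induction_on' with
  | add p q hp hq =>
    constructor
    · intro x h0 h1
      have := (hp.1 x h0 h1).add (hq.1 x h0 h1)
      refine this.congr ?_
      intro n
      rw [Polynomial.eval_add]; ring
    · have h := hp.2.add hq.2
      rw [← intervalIntegral.integral_add (p.continuous.intervalIntegrable _ _)
        (q.continuous.intervalIntegrable _ _)] at h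
      simp only [Polynomial.eval_add]
      refine h.congr' ?_
      filter_upwards [hev] with x hx
      rw [← mul_add, ← (hp.1 x hx.1 hx.2).tsum_add (hq.1 x hx.1 hx.2)]
      congr 1
      apply tsum_congr
      intro n
      ring
  | monomial j a =>
    have hpow : ∀ x : ℝ, ∀ n : ℕ, d n * x ^ n * (a * (x ^ n) ^ j) = a * (d n * (x ^ (j + 1)) ^ n) := by
      intro x n
      rw [← pow_mul, ← pow_mul]
      have : x ^ ((j + 1) * n) = x ^ n * x ^ (n * j) := by
        rw [← pow_add]; congr 1; ring
      rw [this]; ring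
    constructor
    · intro x h0 h1
      simp only [Polynomial.eval_monomial, hpow]
      exact (hs (x ^ (j + 1)) (by positivity) (pow_lt_one₀ h0.le h1 (by omega))).mul_left a
    · simp only [Polynomial.eval_monomial, hpow, tsum_mul_left]
      have hint : ∫ t in (0 : ℝ)..1, a * t ^ j = a * (1 / ((j : ℝ) + 1) * 1) := by
        rw [intervalIntegral.integral_const_mul, integral_pow]
        simp
      rw [hint]
      have hgeom : Tendsto (fun x : ℝ => 1 / ∑ i ∈ Finset.range (j + 1), x ^ i) (𝓝[<] 1)
          (𝓝 (1 / ((j : ℝ) + 1))) := by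
        have hc : ContinuousAt (fun x : ℝ => 1 / ∑ i ∈ Finset.range (j + 1), x ^ i) 1 := by
          apply ContinuousAt.div continuousAt_const
          · fun_prop
          · simp only [one_pow, Finset.sum_const, Finset.card_range, nsmul_eq_mul, mul_one]
            positivity
        have := hc.tendsto.mono_left (nhdsWithin_le_nhds (s := Set.Iio 1))
        simpa using this
      have hcomp : Tendsto (fun x : ℝ => x ^ (j + 1)) (𝓝[<] 1) (𝓝[<] 1) := by
        rw [tendsto_nhdsWithin_iff]
        constructor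
        · have : ContinuousAt (fun x : ℝ => x ^ (j + 1)) 1 := by fun_prop
          have := this.tendsto.mono_left (nhdsWithin_le_nhds (s := Set.Iio 1))
          simpa using this
        · filter_upwards [hev] with x hx
          exact pow_lt_one₀ hx.1.le hx.2 (by omega)
      have h2 := hlim.comp hcomp
      refine ((hgeom.mul h2).const_mul a).congr' ?_
      filter_upwards [hev] with x hx
      simp only [Function.comp]
      have hg : (∑ i ∈ Finset.range (j + 1), x ^ i) * (1 - x) = 1 - x ^ (j + 1) :=
        geom_sum_mul_neg x (j + 1)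
      have hg0 : 0 < ∑ i ∈ Finset.range (j + 1), x ^ i := by
        apply Finset.sum_pos
        · intro i _
          exact pow_pos hx.1 i
        · exact ⟨0, by simp⟩
      rw [← hg]
      field_simp

/-- auxiliary function -/
noncomputable def kphi (u v t : ℝ) : ℝ := 1 / max t u * max 0 (min 1 ((t - u) / (v - u)))

theorem kphi_cont (u v : ℝ) (hu : 0 < u) : Continuous (kphi u v) := by
  unfold kphi
  apply Continuous.mul
  · apply Continuous.div continuous_const (continuous_id.max continuous_const)
    intro x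
    exact (lt_of_lt_of_le hu (le_max_right _ _)).ne'
  · exact continuous_const.max (continuous_const.min ((continuous_id.sub continuous_const).div_const _))

theorem kphi_nonneg (u v t : ℝ) (hu : 0 < u) : 0 ≤ kphi u v t := by
  unfold kphi
  have : 0 < max t u := lt_of_lt_of_le hu (le_max_right _ _)
  have h2 : 0 ≤ max 0 (min 1 ((t - u) / (v - u))) := le_max_left _ _
  positivity

theorem kphi_zero (u v t : ℝ) (huv : u < v) (ht : t ≤ u) : kphi u v t = 0 := by
  unfold kphi
  have : (t - u) / (v - u) ≤ 0 := div_nonpos_of_nonpos_of_nonneg (by linarith) (by linarith)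
  rw [max_eq_left ((min_le_right _ _).trans this), mul_zero]

theorem kphi_le (u v t : ℝ) (hu : 0 < u) (ht : u ≤ t) : kphi u v t ≤ 1 / t := by
  unfold kphi
  rw [max_eq_left ht]
  have ht0 : 0 < t := by linarith
  have : max 0 (min 1 ((t - u) / (v - u))) ≤ 1 := max_le zero_le_one (min_le_left _ _)
  have h2 : 0 ≤ 1 / t := by positivity
  nlinarith

theorem kphi_eq (u v t : ℝ) (hu : 0 < u) (huv : u < v) (ht : v ≤ t) : kphi u v t = 1 / t := by
  unfold kphi
  rw [max_eq_left (by linarith : u ≤ t)]
  have : 1 ≤ (t - u) / (v - u) := by rw [le_div_iff₀ (by linarith)]; linarith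
  rw [min_eq_left this, max_eq_right zero_le_one, mul_one]

theorem kphi_int_le (u v : ℝ) (hu : 0 < u) (huv : u < v) (hv : v ≤ 1) :
    ∫ t in (0 : ℝ)..1, kphi u v t ≤ -Real.log u := by
  have hc := kphi_cont u v hu
  rw [← intervalIntegral.integral_add_adjacent_intervals (hc.intervalIntegrable 0 u)
    (hc.intervalIntegrable u 1)]
  have h1 : ∫ t in (0 : ℝ)..u, kphi u v t = 0 := by
    rw [intervalIntegral.integral_congr (g := fun _ => (0 : ℝ))]
    · simp
    · intro t ht
      rw [Set.uIcc_of_le hu.le] at ht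
      exact kphi_zero u v t huv ht.2
  have h2 : ∫ t in u..1, kphi u v t ≤ ∫ t in u..1, 1 / t := by
    apply intervalIntegral.integral_mono_on (by linarith) (hc.intervalIntegrable u 1)
    · apply intervalIntegral.intervalIntegrable_one_div (f := fun t => t)
      · intro x hx
        rw [Set.uIcc_of_le (by linarith)] at hx
        linarith [hx.1]
      · exact continuousOn_id
    · intro t ht
      exact kphi_le u v t hu ht.1
  have h3 : ∫ t in u..1, 1 / t = -Real.log u := by
    rw [integral_one_div_of_pos hu one_pos, Real.log_div one_ne_zero hu.ne', Real.log_one, zero_sub]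
  rw [h1, zero_add, ← h3]
  exact h2

theorem le_kphi_int (u v : ℝ) (hu : 0 < u) (huv : u < v) (hv : v ≤ 1) :
    -Real.log v ≤ ∫ t in (0 : ℝ)..1, kphi u v t := by
  have hv0 : 0 < v := by linarith
  have hc := kphi_cont u v hu
  rw [← intervalIntegral.integral_add_adjacent_intervals (hc.intervalIntegrable 0 v)
    (hc.intervalIntegrable v 1)]
  have h1 : 0 ≤ ∫ t in (0 : ℝ)..v, kphi u v t :=
    intervalIntegral.integral_nonneg hv0.le (fun t _ => kphi_nonneg u v t hu)
  have h2 : ∫ t in v..1, kphi u v t = ∫ t in v..1, 1 / t := by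
    apply intervalIntegral.integral_congr
    intro t ht
    rw [Set.uIcc_of_le hv] at ht
    exact kphi_eq u v t hu huv ht.1
  have h3 : ∫ t in v..1, 1 / t = -Real.log v := by
    rw [integral_one_div_of_pos hv0 one_pos, Real.log_div one_ne_zero hv0.ne', Real.log_one, zero_sub]
  rw [h2, h3]
  linarith

theorem kx_tendsto : Tendsto (fun N : ℕ => Real.exp (-(1 / (N : ℝ)))) atTop (𝓝[<] 1) := by
  rw [tendsto_nhdsWithin_iff]
  constructor
  · have h1 : Tendsto (fun N : ℕ => -(1 / (N : ℝ))) atTop (𝓝 (-0)) :=
      tendsto_one_div_atTop_nhds_zero_nat.neg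
    rw [neg_zero] at h1
    have := (Real.continuous_exp.tendsto 0).comp h1
    rwa [Real.exp_zero] at this
  · filter_upwards [eventually_gt_atTop 0] with N hN
    have : (0 : ℝ) < N := by exact_mod_cast hN
    show Real.exp _ < 1
    rw [Real.exp_lt_one_iff]
    have : 0 < 1 / (N : ℝ) := by positivity
    linarith

theorem kx_slope : Tendsto (fun N : ℕ => (N : ℝ) * (1 - Real.exp (-(1 / (N : ℝ))))) atTop (𝓝 1) := by
  have hd := Real.hasDerivAt_exp 0
  rw [Real.exp_zero, hasDerivAt_iff_tendsto_slope] at hd
  have h1 : Tendsto (fun N : ℕ => -(1 / (N : ℝ))) atTop (𝓝[≠] 0) := by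
    rw [tendsto_nhdsWithin_iff]
    constructor
    · have h1 : Tendsto (fun N : ℕ => -(1 / (N : ℝ))) atTop (𝓝 (-0)) :=
        tendsto_one_div_atTop_nhds_zero_nat.neg
      rwa [neg_zero] at h1
    · filter_upwards [eventually_gt_atTop 0] with N hN
      have : (0 : ℝ) < N := by exact_mod_cast hN
      have : 0 < 1 / (N : ℝ) := by positivity
      simp only [Set.mem_compl_iff, Set.mem_singleton_iff]
      linarith
  have h2 := hd.comp h1
  refine h2.congr' ?_
  filter_upwards [eventually_gt_atTop 0] with N hN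
  have : (0 : ℝ) < N := by exact_mod_cast hN
  simp only [Function.comp, slope_def_field, Real.exp_zero, sub_zero]
  field_simp
  ring

/-- Hardy-Littlewood / Karamata Tauberian theorem for nonnegative coefficients -/
theorem karamata (d : ℕ → ℝ) (hd : ∀ n, 0 ≤ d n)
    (hs : ∀ x : ℝ, 0 < x → x < 1 → Summable (fun n => d n * x ^ n))
    (hlim : Tendsto (fun x : ℝ => (1 - x) * ∑' n, d n * x ^ n) (𝓝[<] 1) (𝓝 1)) :
    Tendsto (fun n : ℕ => (∑ k ∈ Finset.range (n + 1), d k) / (n : ℝ)) atTop (𝓝 1) := by
  -- main estimate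
  have hxN : ∀ N : ℕ, 0 < N → 0 < Real.exp (-(1 / (N : ℝ))) ∧ Real.exp (-(1 / (N : ℝ))) < 1 := by
    intro N hN
    refine ⟨Real.exp_pos _, ?_⟩
    rw [Real.exp_lt_one_iff]
    have : (0 : ℝ) < N := by exact_mod_cast hN
    have : 0 < 1 / (N : ℝ) := by positivity
    linarith
  have hxpow : ∀ N n : ℕ, 0 < N → (Real.exp (-(1 / (N : ℝ)))) ^ n = Real.exp (-((n : ℝ) / N)) := by
    intro N n hN
    rw [← Real.exp_nat_mul]; congr 1; ring
  have hmem : ∀ N n : ℕ, 0 < N → (Real.exp (-(1 / (N : ℝ)))) ^ n ∈ Set.Icc (0 : ℝ) 1 := by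
    intro N n hN
    exact ⟨by have := (hxN N hN).1; positivity, pow_le_one₀ (hxN N hN).1.le (hxN N hN).2.le⟩
  have hle : ∀ N n : ℕ, 0 < N → n ≤ N → Real.exp (-1) ≤ (Real.exp (-(1 / (N : ℝ)))) ^ n := by
    intro N n hN hn
    rw [hxpow N n hN]
    apply Real.exp_le_exp.mpr
    have h1 : (0 : ℝ) < N := by exact_mod_cast hN
    have h2 : (n : ℝ) ≤ N := by exact_mod_cast hn
    have : (n : ℝ) / N ≤ 1 := by rw [div_le_one h1]; exact h2
    linarith
  have hgt : ∀ N n : ℕ, 0 < N → N < n → (Real.exp (-(1 / (N : ℝ)))) ^ n ≤ Real.exp (-1) := by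
    intro N n hN hn
    rw [hxpow N n hN]
    apply Real.exp_le_exp.mpr
    have h1 : (0 : ℝ) < N := by exact_mod_cast hN
    have h2 : (N : ℝ) ≤ n := by exact_mod_cast hn.le
    have : 1 ≤ (n : ℝ) / N := by rw [one_le_div h1]; exact h2
    linarith
  have hmain : Tendsto (fun N : ℕ => (1 - Real.exp (-(1 / (N : ℝ))))
      * ∑ k ∈ Finset.range (N + 1), d k) atTop (𝓝 1) := by
    rw [Metric.tendsto_atTop']
    intro ε' hε'
    obtain ⟨ε, hε0, hε1, hεε⟩ : ∃ ε : ℝ, 0 < ε ∧ ε < 1 ∧ 4 * ε < ε' := by
      refine ⟨min (1 / 2) (ε' / 8), lt_min (by norm_num) (by positivity), ?_, ?_⟩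
      · exact lt_of_le_of_lt (min_le_left _ _) (by norm_num)
      · have := min_le_right (1 / 2) (ε' / 8)
        linarith
    -- upper
    have hu : 0 < Real.exp (-1 - ε) := Real.exp_pos _
    have huc : Real.exp (-1 - ε) < Real.exp (-1) := Real.exp_lt_exp.mpr (by linarith)
    have hc1 : Real.exp (-1) ≤ 1 := Real.exp_le_one_iff.mpr (by norm_num)
    have hcv : Real.exp (-1) < Real.exp (-1 + ε) := Real.exp_lt_exp.mpr (by linarith)
    have hv1 : Real.exp (-1 + ε) ≤ 1 := Real.exp_le_one_iff.mpr (by linarith)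
    obtain ⟨p, hp⟩ := exists_polynomial_near_of_continuousOn 0 1
      (kphi (Real.exp (-1 - ε)) (Real.exp (-1))) (kphi_cont _ _ hu).continuousOn ε hε0
    obtain ⟨q, hq⟩ := exists_polynomial_near_of_continuousOn 0 1
      (kphi (Real.exp (-1)) (Real.exp (-1 + ε))) (kphi_cont _ _ (Real.exp_pos _)).continuousOn ε hε0
    obtain ⟨hPs, hPt⟩ := kar_poly d hs hlim (p + Polynomial.C ε)
    obtain ⟨hQs, hQt⟩ := kar_poly d hs hlim (q - Polynomial.C ε)
    have hIP : ∫ t in (0 : ℝ)..1, (p + Polynomial.C ε).eval t ≤ 1 + 3 * ε := by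
      have h1 : ∫ t in (0 : ℝ)..1, (p + Polynomial.C ε).eval t
          ≤ ∫ t in (0 : ℝ)..1, (kphi (Real.exp (-1 - ε)) (Real.exp (-1)) t + 2 * ε) := by
        apply intervalIntegral.integral_mono_on zero_le_one
          ((p + Polynomial.C ε).continuous.intervalIntegrable _ _)
          (((kphi_cont _ _ hu).add continuous_const).intervalIntegrable _ _)
        intro t ht
        have := (abs_lt.mp (hp t ht)).2
        show (p + Polynomial.C ε).eval t ≤ kphi (Real.exp (-1 - ε)) (Real.exp (-1)) t + 2 * ε
        simp only [Polynomial.eval_add, Polynomial.eval_C]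
        linarith
      rw [intervalIntegral.integral_add ((kphi_cont _ _ hu).intervalIntegrable _ _)
        (continuous_const.intervalIntegrable _ _)] at h1
      have h2 := kphi_int_le _ _ hu huc hc1
      rw [Real.log_exp] at h2
      simp only [intervalIntegral.integral_const, sub_zero, smul_eq_mul, one_mul] at h1
      linarith
    have hIQ : 1 - 3 * ε ≤ ∫ t in (0 : ℝ)..1, (q - Polynomial.C ε).eval t := by
      have h1 : ∫ t in (0 : ℝ)..1, (kphi (Real.exp (-1)) (Real.exp (-1 + ε)) t - 2 * ε)
          ≤ ∫ t in (0 : ℝ)..1, (q - Polynomial.C ε).eval t := by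
        apply intervalIntegral.integral_mono_on zero_le_one
          (((kphi_cont _ _ (Real.exp_pos _)).sub continuous_const).intervalIntegrable _ _)
          ((q - Polynomial.C ε).continuous.intervalIntegrable _ _)
        intro t ht
        have := (abs_lt.mp (hq t ht)).1
        show kphi (Real.exp (-1)) (Real.exp (-1 + ε)) t - 2 * ε ≤ (q - Polynomial.C ε).eval t
        simp only [Polynomial.eval_sub, Polynomial.eval_C]
        linarith
      rw [intervalIntegral.integral_sub ((kphi_cont _ _ (Real.exp_pos _)).intervalIntegrable _ _)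
        (continuous_const.intervalIntegrable _ _)] at h1
      have h2 := le_kphi_int _ _ (Real.exp_pos (-1)) hcv hv1
      rw [Real.log_exp] at h2
      simp only [intervalIntegral.integral_const, sub_zero, smul_eq_mul, one_mul] at h1
      linarith
    have hPe := (hPt.comp kx_tendsto).eventually (gt_mem_nhds
      (show ∫ t in (0 : ℝ)..1, (p + Polynomial.C ε).eval t < 1 + ε' by linarith))
    have hQe := (hQt.comp kx_tendsto).eventually (lt_mem_nhds
      (show 1 - ε' < ∫ t in (0 : ℝ)..1, (q - Polynomial.C ε).eval t by linarith))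
    have hall := (hPe.and hQe).and (eventually_gt_atTop 0)
    obtain ⟨N0, hN0⟩ := eventually_atTop.mp hall
    refine ⟨N0, fun N hN => ?_⟩
    obtain ⟨⟨h1, h2⟩, hNpos⟩ := hN0 N hN.le
    simp only [Function.comp] at h1 h2
    obtain ⟨hx0, hx1⟩ := hxN N hNpos
    have hmN := hmem N
    have hleN := hle N
    have hgtN := hgt N
    set x := Real.exp (-(1 / (N : ℝ))) with hx
    have hnp : ∀ n, 0 < x ^ n := fun n => pow_pos hx0 n
    have hup : ∑ k ∈ Finset.range (N + 1), d k ≤ ∑' n, d n * x ^ n * (p + Polynomial.C ε).eval (x ^ n) := by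
      have hPn : ∀ n, 0 ≤ (p + Polynomial.C ε).eval (x ^ n) := by
        intro n
        have a1 := (abs_lt.mp (hp (x ^ n) (hmN n hNpos))).1
        have a2 := kphi_nonneg (Real.exp (-1 - ε)) (Real.exp (-1)) (x ^ n) hu
        simp only [Polynomial.eval_add, Polynomial.eval_C]
        linarith
      refine le_trans ?_ ((hPs x hx0 hx1).sum_le_tsum (Finset.range (N + 1)) (by
        intro n _
        exact mul_nonneg (mul_nonneg (hd n) (hnp n).le) (hPn n)))
      apply Finset.sum_le_sum
      intro n hn
      have hnN : n ≤ N := by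
        have := Finset.mem_range.mp hn; omega
      have a1 := (abs_lt.mp (hp (x ^ n) (hmN n hNpos))).1
      rw [kphi_eq _ _ _ hu huc (hleN n hNpos hnN)] at a1
      have a2 : 1 / x ^ n ≤ (p + Polynomial.C ε).eval (x ^ n) := by
        simp only [Polynomial.eval_add, Polynomial.eval_C]
        linarith
      have a3 : 1 ≤ x ^ n * (p + Polynomial.C ε).eval (x ^ n) := by
        rw [div_le_iff₀ (hnp n)] at a2
        linarith
      have := mul_le_mul_of_nonneg_left a3 (hd n)
      linarith
    have hlo : ∑' n, d n * x ^ n * (q - Polynomial.C ε).eval (x ^ n) ≤ ∑ k ∈ Finset.range (N + 1), d k := by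
      have hfin : HasSum (fun n => if n ∈ Finset.range (N + 1) then d n else 0)
          (∑ k ∈ Finset.range (N + 1), (if k ∈ Finset.range (N + 1) then d k else 0)) := by
        apply hasSum_sum_of_ne_finset_zero
        intro b hb
        simp [hb]
      have hsumeq : (∑ k ∈ Finset.range (N + 1), (if k ∈ Finset.range (N + 1) then d k else 0))
          = ∑ k ∈ Finset.range (N + 1), d k := by
        apply Finset.sum_congr rfl
        intro k hk
        simp [hk]
      rw [hsumeq] at hfin
      rw [← hfin.tsum_eq]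
      apply Summable.tsum_le_tsum _ (hQs x hx0 hx1) hfin.summable
      intro n
      have a1 := (abs_lt.mp (hq (x ^ n) (hmN n hNpos))).2
      by_cases hn : n ∈ Finset.range (N + 1)
      · rw [if_pos hn]
        have hnN : n ≤ N := by
          have := Finset.mem_range.mp hn; omega
        have a2 := kphi_le (Real.exp (-1)) (Real.exp (-1 + ε)) (x ^ n) (Real.exp_pos _)
          (hleN n hNpos hnN)
        have a3 : (q - Polynomial.C ε).eval (x ^ n) ≤ 1 / x ^ n := by
          simp only [Polynomial.eval_sub, Polynomial.eval_C]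
          linarith
        have a4 : x ^ n * (q - Polynomial.C ε).eval (x ^ n) ≤ 1 := by
          rw [le_div_iff₀ (hnp n)] at a3
          linarith
        have := mul_le_mul_of_nonneg_left a4 (hd n)
        linarith
      · rw [if_neg hn]
        have hnN : N < n := by
          rw [Finset.mem_range] at hn; omega
        rw [kphi_zero _ _ _ hcv (hgtN n hNpos hnN)] at a1
        have a3 : (q - Polynomial.C ε).eval (x ^ n) ≤ 0 := by
          simp only [Polynomial.eval_sub, Polynomial.eval_C]
          linarith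
        exact mul_nonpos_of_nonneg_of_nonpos (mul_nonneg (hd n) (hnp n).le) a3
    have hx1' : 0 < 1 - x := by linarith
    have b1 := mul_le_mul_of_nonneg_left hup hx1'.le
    have b2 := mul_le_mul_of_nonneg_left hlo hx1'.le
    rw [Real.dist_eq, abs_lt]
    constructor <;> linarith
  have hfinal := hmain.div kx_slope one_ne_zero
  rw [div_one] at hfinal
  refine hfinal.congr' ?_
  filter_upwards [eventually_gt_atTop 0] with N hN
  have h1 : (0 : ℝ) < N := by exact_mod_cast hN
  have h2 : 0 < 1 - Real.exp (-(1 / (N : ℝ))) := by linarith [(hxN N hN).2]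
  simp only [Pi.div_apply]
  field_simp

end Pool.Agent.Helper101.Srt
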