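import Mathlib
set_option autoImplicit false
open Filter Topology
namespace Pool.Agent.Helper101.Srt

theorem pp_alg {a B a' B' : ℝ} (ha : 0 < a) (ha' : a' = 1 + a + a ^ 2 - B)
    (hB' : B' ≤ a + a ^ 2 + a * B) :
    (B' * a ^ 2 - B * (2 * a * a')) / (a ^ 2) ^ 2
      ≤ (1 - 2 * (B / a ^ 2)) * (1 + a⁻¹ - a * (B / a ^ 2)) := by
  have h1 : (B' * a ^ 2 - B * (2 * a * a')) / (a ^ 2) ^ 2
      = (B' - (a + a ^ 2 + a * B)) / a ^ 2
        + (1 - 2 * (B / a ^ 2)) * (1 + a⁻¹ - a * (B / a ^ 2)) := by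
    rw [ha']
    field_simp
    ring
  rw [h1]
  have h2 : (B' - (a + a ^ 2 + a * B)) / a ^ 2 ≤ 0 :=
    div_nonpos_of_nonpos_of_nonneg (by linarith) (by positivity)
  linarith

/-- Step 1 : `e → 0` -/
theorem pp_step1 (ρ z0 : ℝ) (hz : z0 < ρ) (a e a' e' : ℝ → ℝ)
    (ha : ∀ z, z0 < z → z < ρ → HasDerivAt a (a' z) z)
    (he : ∀ z, z0 < z → z < ρ → HasDerivAt e (e' z) z)
    (ha' : ∀ z, z0 < z → z < ρ → a' z ≤ (1 + a z) ^ 2)
    (he' : ∀ z, z0 < z → z < ρ → e' z ≤ (1 - 2 * e z) * (1 + (a z)⁻¹ - a z * e z))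
    (hpos : ∀ z, z0 < z → z < ρ → 0 < a z)
    (he0 : ∀ z, z0 < z → z < ρ → 0 ≤ e z)
    (hhalf : ∀ z, z0 < z → z < ρ → e z < 1 / 2)
    (hinf : Tendsto a (𝓝[<] ρ) atTop) :
    Tendsto e (𝓝[<] ρ) (𝓝 0) := by
  -- key : eventually `e ≤ c`
  have key : ∀ c : ℝ, 0 < c → c < 1 / 2 → ∃ w, z0 < w ∧ w < ρ ∧ ∀ z, w ≤ z → z < ρ → e z ≤ c := by
    intro c hc0 hc1
    obtain ⟨z1, hz1, hz1ρ, hbig⟩ : ∃ z1, z0 < z1 ∧ z1 < ρ ∧
        ∀ z, z1 ≤ z → z < ρ → max 1 (4 / c) ≤ a z := by
      have h1 := hinf.eventually (eventually_ge_atTop (max 1 (4 / c)))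
      rw [eventually_iff, mem_nhdsLT_iff_exists_Ioo_subset] at h1
      obtain ⟨l, hl, hl2⟩ := h1
      have hl' : l < ρ := hl
      refine ⟨(max l z0 + ρ) / 2, ?_, ?_, ?_⟩
      · have := le_max_right l z0
        have := max_lt hl' hz
        linarith
      · have := max_lt hl' hz
        linarith
      · intro z h1 h2
        refine hl2 ⟨?_, h2⟩
        have := le_max_left l z0
        have := max_lt hl' hz
        linarith
    have ha1 : ∀ z, z1 ≤ z → z < ρ → 1 ≤ a z := fun z h1 h2 =>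
      (le_max_left _ _).trans (hbig z h1 h2)
    -- `1 + 1/a ≤ a c / 2`
    have hay : ∀ z, z1 ≤ z → z < ρ → 1 + (a z)⁻¹ ≤ a z * (c / 2) := by
      intro z h1 h2
      have h3 := ha1 z h1 h2
      have h4 : 4 / c ≤ a z := (le_max_right _ _).trans (hbig z h1 h2)
      rw [div_le_iff₀ hc0] at h4
      have h5 : (a z)⁻¹ ≤ 1 := inv_le_one_of_one_le₀ h3
      linarith
    by_cases hcase : ∃ w, z1 ≤ w ∧ w < ρ ∧ e w ≤ c
    · obtain ⟨w, hw1, hw2, hw⟩ := hcase
      refine ⟨w, by linarith, hw2, fun z hz1' hz2 => ?_⟩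
      have h1 := image_le_of_deriv_right_lt_deriv_boundary' (f := e) (f' := e') (a := w) (b := z)
        (B := fun _ => c) (B' := fun _ => 0) ?_ ?_ hw continuousOn_const ?_ ?_
      · exact h1 (Set.right_mem_Icc.2 hz1')
      · intro x hx
        exact (he x (by linarith [hx.1]) (by linarith [hx.2])).continuousAt.continuousWithinAt
      · intro x hx
        exact (he x (by linarith [hx.1]) (by linarith [hx.2])).hasDerivWithinAt
      · intro x _
        exact (hasDerivAt_const x c).hasDerivWithinAt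
      · intro x hx hxc
        have hxc' : e x = c := hxc
        have h2 := he' x (by linarith [hx.1]) (by linarith [hx.2])
        have h3 := hay x (by linarith [hx.1]) (by linarith [hx.2])
        have h4 := ha1 x (by linarith [hx.1]) (by linarith [hx.2])
        rw [hxc'] at h2
        have h5 : 1 + (a x)⁻¹ - a x * c < 0 := by nlinarith
        have h6 : (1 - 2 * c) * (1 + (a x)⁻¹ - a x * c) < 0 :=
          mul_neg_of_pos_of_neg (by linarith) h5
        change e' x < 0
        linarith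
    · exfalso
      push Not at hcase
      have hneg : ∀ z, z1 ≤ z → z < ρ → e' z ≤ -((1 - 2 * e z) * (a z * (c / 2))) := by
        intro z h1 h2
        have h3 := he' z (by linarith) h2
        have h4 := hay z h1 h2
        have h5 := hcase z h1 h2
        have h6 := ha1 z h1 h2
        have h7 := hhalf z (by linarith) h2
        have h8 : 1 + (a z)⁻¹ - a z * e z ≤ -(a z * (c / 2)) := by nlinarith
        have h9 : (1 - 2 * e z) * (1 + (a z)⁻¹ - a z * e z)
            ≤ (1 - 2 * e z) * (-(a z * (c / 2))) :=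
          mul_le_mul_of_nonneg_left h8 (by linarith)
        linarith
      have hanti : ∀ (g g' : ℝ → ℝ), (∀ z, z1 ≤ z → z < ρ → HasDerivAt g (g' z) z) →
          (∀ z, z1 ≤ z → z < ρ → g' z ≤ 0) → ∀ z, z1 ≤ z → z < ρ → g z ≤ g z1 := by
        intro g g' hg hg' z h1 h2
        have h3 : AntitoneOn g (Set.Icc z1 z) := by
          refine antitoneOn_of_deriv_nonpos (convex_Icc _ _) ?_ ?_ ?_
          · intro x hx
            exact (hg x hx.1 (by linarith [hx.2])).continuousAt.continuousWithinAt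
          · intro x hx
            rw [interior_Icc] at hx
            exact (hg x hx.1.le (by linarith [hx.2])).differentiableAt.differentiableWithinAt
          · intro x hx
            rw [interior_Icc] at hx
            rw [(hg x hx.1.le (by linarith [hx.2])).deriv]
            exact hg' x hx.1.le (by linarith [hx.2])
        exact h3 (Set.left_mem_Icc.2 h1) (Set.right_mem_Icc.2 h1) h1
      have he1 : ∀ z, z1 ≤ z → z < ρ → e z ≤ e z1 := by
        refine hanti e e' (fun z h1 h2 => he z (by linarith) h2) (fun z h1 h2 => ?_)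
        have h3 := hneg z h1 h2
        have h4 := hhalf z (by linarith) h2
        have h5 := ha1 z h1 h2
        have h6 : 0 ≤ (1 - 2 * e z) * (a z * (c / 2)) := by
          refine mul_nonneg (by linarith) (by positivity)
        linarith
      obtain ⟨k, hk⟩ : ∃ k, k = 1 - 2 * e z1 := ⟨_, rfl⟩
      have hk0 : 0 < k := by
        have := hhalf z1 hz1 hz1ρ
        rw [hk]
        linarith
      have hL := hanti (fun z => e z + (k * c / 4) * Real.log (1 + a z))
        (fun z => e' z + (k * c / 4) * (a' z / (1 + a z))) (fun z h1 h2 => by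
          have h3 := ha1 z h1 h2
          have h4 : HasDerivAt (fun z => 1 + a z) (a' z) z :=
            (ha z (by linarith) h2).const_add 1
          have h5 := h4.log (by linarith)
          exact (he z (by linarith) h2).add (h5.const_mul _)) (fun z h1 h2 => by
          have h3 := ha1 z h1 h2
          have h4 := ha' z (by linarith) h2
          have h5 : a' z / (1 + a z) ≤ 1 + a z := by
            rw [div_le_iff₀ (by linarith)]
            linarith
          have h6 := hneg z h1 h2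
          have h7 := he1 z h1 h2
          have h8 : k * (a z * (c / 2)) ≤ (1 - 2 * e z) * (a z * (c / 2)) := by
            refine mul_le_mul_of_nonneg_right ?_ (by positivity)
            rw [hk]
            linarith
          have h9 : (k * c / 4) * (a' z / (1 + a z)) ≤ (k * c / 4) * (1 + a z) :=
            mul_le_mul_of_nonneg_left h5 (by positivity)
          have h10 : (k * c / 4) * (1 + a z) ≤ (k * c / 4) * (2 * a z) :=
            mul_le_mul_of_nonneg_left (by linarith) (by positivity)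
          change e' z + (k * c / 4) * (a' z / (1 + a z)) ≤ 0
          linarith)
      obtain ⟨M, hM⟩ : ∃ M, M = e z1 + (k * c / 4) * Real.log (1 + a z1) := ⟨_, rfl⟩
      have hkc : 0 < k * c / 4 := by positivity
      have hlog : ∀ z, z1 ≤ z → z < ρ → Real.log (1 + a z) ≤ M / (k * c / 4) := by
        intro z h1 h2
        have h3 := hL z h1 h2
        have h3' : e z + (k * c / 4) * Real.log (1 + a z) ≤ M := by
          rw [hM]
          exact h3
        have h4 := he0 z (by linarith) h2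
        rw [le_div_iff₀ hkc]
        linarith
      have h1 : Tendsto (fun z => Real.log (1 + a z)) (𝓝[<] ρ) atTop :=
        Real.tendsto_log_atTop.comp (tendsto_atTop_add_const_left _ 1 hinf)
      have h2 := h1.eventually (eventually_gt_atTop (M / (k * c / 4)))
      have h3 : ∀ᶠ z in 𝓝[<] ρ, z1 ≤ z ∧ z < ρ := by
        have : Set.Ioo z1 ρ ∈ 𝓝[<] ρ := Ioo_mem_nhdsLT hz1ρ
        filter_upwards [this] with z hz
        exact ⟨hz.1.le, hz.2⟩
      obtain ⟨z, hz2, hz3, hz4⟩ := (h2.and h3).exists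
      have := hlog z hz3 hz4
      linarith
  rw [Metric.tendsto_nhds]
  intro ε hε
  obtain ⟨w, hw0, hw1, hw⟩ := key (min (ε / 2) (1 / 4)) (by positivity)
    (lt_of_le_of_lt (min_le_right _ _) (by norm_num))
  have : Set.Ioo w ρ ∈ 𝓝[<] ρ := Ioo_mem_nhdsLT hw1
  filter_upwards [this] with z hz'
  have h1 := hw z hz'.1.le hz'.2
  have h2 := he0 z (by linarith [hz'.1]) hz'.2
  rw [Real.dist_eq, sub_zero, abs_of_nonneg h2]
  have h3 := min_le_left (ε / 2) (1 / 4 : ℝ)
  linarith

/-- phase plane lemma -/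
theorem phase_plane (ρ z0 : ℝ) (hz : z0 < ρ) (a B a' B' : ℝ → ℝ)
    (ha : ∀ z, z0 < z → z < ρ → HasDerivAt a (a' z) z)
    (hB : ∀ z, z0 < z → z < ρ → HasDerivAt B (B' z) z)
    (ha' : ∀ z, z0 < z → z < ρ → a' z = 1 + a z + a z ^ 2 - B z)
    (hB' : ∀ z, z0 < z → z < ρ → B' z ≤ a z + a z ^ 2 + a z * B z)
    (hpos : ∀ z, z0 < z → z < ρ → 0 < a z)
    (hB0 : ∀ z, z0 < z → z < ρ → 0 ≤ B z)
    (hhalf : ∀ z, z0 < z → z < ρ → 2 * B z < a z ^ 2)
    (hinf : Tendsto a (𝓝[<] ρ) atTop) :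
    Tendsto (fun z => (ρ - z) * a z) (𝓝[<] ρ) (𝓝 1) ∧
      Tendsto (fun z => (ρ - z) ^ 2 * B z) (𝓝[<] ρ) (𝓝 0) := by
  have hane : ∀ z, z0 < z → z < ρ → a z ≠ 0 := fun z h1 h2 => (hpos z h1 h2).ne'
  have hder : ∀ z, z0 < z → z < ρ → HasDerivAt (fun z => B z / a z ^ 2)
      ((B' z * a z ^ 2 - B z * (2 * a z * a' z)) / (a z ^ 2) ^ 2) z := by
    intro z h1 h2
    have h3 : HasDerivAt (fun z => a z ^ 2) (2 * a z * a' z) z := by
      have h4 := (ha z h1 h2).fun_pow 2
      have h5 : ((2 : ℕ) : ℝ) * a z ^ (2 - 1) * a' z = 2 * a z * a' z := by norm_num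
      rw [h5] at h4
      exact h4
    exact (hB z h1 h2).div h3 (pow_ne_zero 2 (hane z h1 h2))
  have he0 : Tendsto (fun z => B z / a z ^ 2) (𝓝[<] ρ) (𝓝 0) := by
    refine pp_step1 ρ z0 hz a (fun z => B z / a z ^ 2) a'
      (fun z => (B' z * a z ^ 2 - B z * (2 * a z * a' z)) / (a z ^ 2) ^ 2) ha hder ?_ ?_ hpos
      ?_ ?_ hinf
    · intro z h1 h2
      rw [ha' z h1 h2]
      have h3 := hpos z h1 h2
      have h4 := hB0 z h1 h2
      nlinarith
    · intro z h1 h2
      exact pp_alg (hpos z h1 h2) (ha' z h1 h2) (hB' z h1 h2)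
    · intro z h1 h2
      have h3 := hpos z h1 h2
      have h4 := hB0 z h1 h2
      positivity
    · intro z h1 h2
      have h3 := hpos z h1 h2
      have h4 := hhalf z h1 h2
      change B z / a z ^ 2 < 1 / 2
      rw [div_lt_iff₀ (by positivity)]
      linarith
  have hy0 : Tendsto (fun z => (a z)⁻¹) (𝓝[<] ρ) (𝓝 0) := tendsto_inv_atTop_zero.comp hinf
  have hyd : ∀ z ∈ Set.Ioo z0 ρ, HasDerivAt (fun z => (a z)⁻¹)
      (-(1 + (a z)⁻¹ + ((a z)⁻¹) ^ 2 - B z / a z ^ 2)) z := by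
    rintro z ⟨h1, h2⟩
    have h3 := (ha z h1 h2).fun_inv (hane z h1 h2)
    have h4 : -a' z / a z ^ 2 = -(1 + (a z)⁻¹ + ((a z)⁻¹) ^ 2 - B z / a z ^ 2) := by
      rw [ha' z h1 h2]
      have := hane z h1 h2
      field_simp
      ring
    rw [h4] at h3
    exact h3
  have hgd : ∀ z ∈ Set.Ioo z0 ρ, HasDerivAt (fun z => ρ - z) (-1) z := by
    intro z _
    exact (hasDerivAt_id z).const_sub ρ
  have hg0 : Tendsto (fun z => ρ - z) (𝓝[<] ρ) (𝓝 0) := by
    have h1 : Continuous (fun z : ℝ => ρ - z) := by fun_prop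
    have h2 := (h1.tendsto ρ).mono_left (nhdsWithin_le_nhds (s := Set.Iio ρ))
    rwa [sub_self] at h2
  have hlim : Tendsto (fun z => (a z)⁻¹ / (ρ - z)) (𝓝[<] ρ) (𝓝 1) := by
    refine HasDerivAt.lhopital_zero_left_on_Ioo hz hyd hgd (fun _ _ => by norm_num) hy0 hg0 ?_
    have h1 : Tendsto (fun z => 1 + (a z)⁻¹ + ((a z)⁻¹) ^ 2 - B z / a z ^ 2) (𝓝[<] ρ)
        (𝓝 (1 + 0 + 0 ^ 2 - 0)) := ((hy0.const_add 1).add (hy0.pow 2)).sub he0
    have h2 : (1 : ℝ) + 0 + 0 ^ 2 - 0 = 1 := by norm_num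
    rw [h2] at h1
    refine h1.congr (fun z => ?_)
    ring
  have hmem : Set.Ioo z0 ρ ∈ 𝓝[<] ρ := Ioo_mem_nhdsLT hz
  have hmain : Tendsto (fun z => (ρ - z) * a z) (𝓝[<] ρ) (𝓝 1) := by
    have h1 := hlim.inv₀ one_ne_zero
    rw [inv_one] at h1
    refine h1.congr' ?_
    filter_upwards [hmem] with z hz'
    rw [inv_div, div_inv_eq_mul]
  refine ⟨hmain, ?_⟩
  have h1 := (hmain.pow 2).mul he0
  rw [mul_zero] at h1
  refine h1.congr' ?_
  filter_upwards [hmem] with z hz'
  have := hane z hz'.1 hz'.2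
  field_simp

end Pool.Agent.Helper101.Srt
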