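import Mathlib
set_option autoImplicit false
namespace Pool.Agent.Helper101.Srt

theorem ineq1 {w x y u : ℝ} (hw : 0 < w) (hx : 0 ≤ x ∧ x ≤ w) (hy : 0 ≤ y ∧ y ≤ w)
    (hu : 0 ≤ u ∧ u ≤ w) : x * (w - u) ≤ x * (w - y) + y * (w - u) := by
  have h1 : 0 ≤ (w - x) * (y * (w - u)) :=
    mul_nonneg (by linarith) (mul_nonneg hy.1 (by linarith))
  have h2 : 0 ≤ x * (u * (w - y)) := mul_nonneg hx.1 (mul_nonneg hu.1 (by linarith))
  have h3 : w * (x * (w - y) + y * (w - u) - x * (w - u)) =
    (w - x) * (y * (w - u)) + x * (u * (w - y)) := by ring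
  have h4 : 0 ≤ x * (w - y) + y * (w - u) - x * (w - u) := by
    refine nonneg_of_mul_nonneg_right ?_ hw
    rw [h3]; linarith
  linarith

theorem ineq2 {w x y z u : ℝ} (hw : 0 < w) (hx : 0 ≤ x ∧ x ≤ w) (hy : 0 ≤ y ∧ y ≤ w)
    (hz : 0 ≤ z ∧ z ≤ w) (hu : 0 ≤ u ∧ u ≤ w) :
    x * (w - u) ≤ x * (w - y) + y * (w - z) + z * (w - u) := by
  have h1 := ineq1 hw hx hy hu
  have h2 := ineq1 hw hy hz hu
  linarith

theorem sub_sum (F : ℕ → ℝ) (s : Finset ℕ) (b : ℕ) (φ : ℕ → ℕ) (hφ : ∀ k ∈ s, φ k < b)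
    (hinj : ∀ k ∈ s, ∀ l ∈ s, φ k = φ l → k = l) (hF : ∀ j < b, 0 ≤ F j) :
    ∑ k ∈ s, F (φ k) ≤ ∑ j ∈ Finset.range b, F j := by
  classical
  rw [← Finset.sum_image (f := F) (g := φ) (s := s) (fun k hk l hl h => hinj k hk l hl h)]
  refine Finset.sum_le_sum_of_subset_of_nonneg ?_ ?_
  · intro x hx
    obtain ⟨k, hk, rfl⟩ := Finset.mem_image.mp hx
    exact Finset.mem_range.mpr (hφ k hk)
  · intro j hj _
    exact hF j (Finset.mem_range.mp hj)

/-- the convolution defect -/
noncomputable def AA (d : ℕ → ℝ) (w : ℝ) (N t : ℕ) : ℝ :=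
  ∑ k ∈ Finset.range (N - t + 1), d k * (w - d (N - t - k))

/-- the shift defect -/
noncomputable def CC (d : ℕ → ℝ) (w : ℝ) (N h : ℕ) : ℝ :=
  ∑ k ∈ Finset.range (N - h + 1), d k * (w - d (k + h))

section
variable {N : ℕ} {w : ℝ} {d : ℕ → ℝ} (hw : 0 < w) (hb : ∀ k ≤ N, 0 ≤ d k ∧ d k ≤ w)
include hw hb

theorem AA_nonneg (t : ℕ) : 0 ≤ AA d w N t := by
  refine Finset.sum_nonneg fun k hk => ?_
  rw [Finset.mem_range] at hk
  exact mul_nonneg (hb k (by omega)).1 (by linarith [(hb (N - t - k) (by omega)).2])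

theorem AA_sub {s t : ℕ} (hst : s + t ≤ N) :
    AA d w N (s + t) ≤ AA d w N s + AA d w N t + AA d w N 0 := by
  have h1 : AA d w N (s + t) ≤ ∑ k ∈ Finset.range (N - (s + t) + 1),
      (d k * (w - d (N - t - k)) + d (N - t - k) * (w - d (k + t)) +
        d (k + t) * (w - d (N - (s + t) - k))) := by
    refine Finset.sum_le_sum fun k hk => ?_
    rw [Finset.mem_range] at hk
    exact ineq2 hw (hb k (by omega)) (hb _ (by omega)) (hb _ (by omega)) (hb _ (by omega))
  rw [Finset.sum_add_distrib, Finset.sum_add_distrib] at h1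
  have h2 : ∑ k ∈ Finset.range (N - (s + t) + 1), d k * (w - d (N - t - k)) ≤ AA d w N t :=
    sub_sum (fun j => d j * (w - d (N - t - j))) _ _ (fun k => k)
      (fun k hk => by rw [Finset.mem_range] at hk; omega) (fun k _ l _ h => h)
      (fun j hj => mul_nonneg (hb j (by omega)).1 (by linarith [(hb (N - t - j) (by omega)).2]))
  have h3 : ∑ k ∈ Finset.range (N - (s + t) + 1), d (N - t - k) * (w - d (k + t)) ≤ AA d w N 0 := by
    have := sub_sum (fun j => d j * (w - d (N - 0 - j))) (Finset.range (N - (s + t) + 1))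
      (N - 0 + 1) (fun k => N - t - k)
      (fun k hk => by rw [Finset.mem_range] at hk; omega)
      (fun k hk l hl h => by rw [Finset.mem_range] at hk hl; omega)
      (fun j hj => mul_nonneg (hb j (by omega)).1 (by linarith [(hb (N - 0 - j) (by omega)).2]))
    refine le_trans (le_of_eq ?_) this
    refine Finset.sum_congr rfl fun k hk => ?_
    rw [Finset.mem_range] at hk
    have e : N - 0 - (N - t - k) = k + t := by omega
    simp only [e]
  have h4 : ∑ k ∈ Finset.range (N - (s + t) + 1), d (k + t) * (w - d (N - (s + t) - k)) ≤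
      AA d w N s := by
    have := sub_sum (fun j => d j * (w - d (N - s - j))) (Finset.range (N - (s + t) + 1))
      (N - s + 1) (fun k => k + t)
      (fun k hk => by rw [Finset.mem_range] at hk; omega)
      (fun k hk l hl h => by omega)
      (fun j hj => mul_nonneg (hb j (by omega)).1 (by linarith [(hb (N - s - j) (by omega)).2]))
    refine le_trans (le_of_eq ?_) this
    refine Finset.sum_congr rfl fun k hk => ?_
    rw [Finset.mem_range] at hk
    have e : N - s - (k + t) = N - (s + t) - k := by omega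
    simp only [e]
  linarith

theorem CC_le {h : ℕ} (hh : h ≤ N) : CC d w N h ≤ AA d w N h + AA d w N 0 := by
  have h1 : CC d w N h ≤ ∑ k ∈ Finset.range (N - h + 1),
      (d k * (w - d (N - h - k)) + d (N - h - k) * (w - d (k + h))) := by
    refine Finset.sum_le_sum fun k hk => ?_
    rw [Finset.mem_range] at hk
    exact ineq1 hw (hb k (by omega)) (hb _ (by omega)) (hb _ (by omega))
  rw [Finset.sum_add_distrib] at h1
  have h3 : ∑ k ∈ Finset.range (N - h + 1), d (N - h - k) * (w - d (k + h)) ≤ AA d w N 0 := by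
    have := sub_sum (fun j => d j * (w - d (N - 0 - j))) (Finset.range (N - h + 1))
      (N - 0 + 1) (fun k => N - h - k)
      (fun k hk => by rw [Finset.mem_range] at hk; omega)
      (fun k hk l hl h => by rw [Finset.mem_range] at hk hl; omega)
      (fun j hj => mul_nonneg (hb j (by omega)).1 (by linarith [(hb (N - 0 - j) (by omega)).2]))
    refine le_trans (le_of_eq ?_) this
    refine Finset.sum_congr rfl fun k hk => ?_
    rw [Finset.mem_range] at hk
    have e : N - 0 - (N - h - k) = k + h := by omega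
    simp only [e]
  have h2 : ∑ k ∈ Finset.range (N - h + 1), d k * (w - d (N - h - k)) = AA d w N h := rfl
  linarith

theorem AA_le {t h : ℕ} (hth : t + h ≤ N) :
    AA d w N t ≤ AA d w N (t + h) + CC d w N h +
      w * (∑ k ∈ Finset.range (N - t + 1), d k - ∑ k ∈ Finset.range (N - (t + h) + 1), d k) := by
  have hsplit : AA d w N t = ∑ k ∈ Finset.range (N - (t + h) + 1), d k * (w - d (N - t - k)) +
      ∑ k ∈ Finset.Ico (N - (t + h) + 1) (N - t + 1), d k * (w - d (N - t - k)) :=
    (Finset.sum_range_add_sum_Ico _ (by omega)).symm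
  have hsplit2 : ∑ k ∈ Finset.range (N - t + 1), d k =
      ∑ k ∈ Finset.range (N - (t + h) + 1), d k +
      ∑ k ∈ Finset.Ico (N - (t + h) + 1) (N - t + 1), d k :=
    (Finset.sum_range_add_sum_Ico _ (by omega)).symm
  have h1 : ∑ k ∈ Finset.Ico (N - (t + h) + 1) (N - t + 1), d k * (w - d (N - t - k)) ≤
      w * ∑ k ∈ Finset.Ico (N - (t + h) + 1) (N - t + 1), d k := by
    rw [Finset.mul_sum]
    refine Finset.sum_le_sum fun k hk => ?_
    rw [Finset.mem_Ico] at hk
    have a1 := (hb k (by omega)).1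
    have a2 := (hb (N - t - k) (by omega)).1
    nlinarith
  have h2 : ∑ k ∈ Finset.range (N - (t + h) + 1), d k * (w - d (N - t - k)) ≤
      ∑ k ∈ Finset.range (N - (t + h) + 1),
      (d k * (w - d (N - (t + h) - k)) + d (N - (t + h) - k) * (w - d (N - t - k))) := by
    refine Finset.sum_le_sum fun k hk => ?_
    rw [Finset.mem_range] at hk
    exact ineq1 hw (hb k (by omega)) (hb _ (by omega)) (hb _ (by omega))
  rw [Finset.sum_add_distrib] at h2
  have h3 : ∑ k ∈ Finset.range (N - (t + h) + 1), d (N - (t + h) - k) * (w - d (N - t - k)) ≤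
      CC d w N h := by
    have := sub_sum (fun j => d j * (w - d (j + h))) (Finset.range (N - (t + h) + 1))
      (N - h + 1) (fun k => N - (t + h) - k)
      (fun k hk => by rw [Finset.mem_range] at hk; omega)
      (fun k hk l hl h => by rw [Finset.mem_range] at hk hl; omega)
      (fun j hj => mul_nonneg (hb j (by omega)).1 (by linarith [(hb (j + h) (by omega)).2]))
    refine le_trans (le_of_eq ?_) this
    refine Finset.sum_congr rfl fun k hk => ?_
    rw [Finset.mem_range] at hk
    have e : N - (t + h) - k + h = N - t - k := by omega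
    simp only [e]
  have h4 : ∑ k ∈ Finset.range (N - (t + h) + 1), d k * (w - d (N - (t + h) - k)) =
    AA d w N (t + h) := rfl
  rw [hsplit2]
  have h5 : w * (∑ k ∈ Finset.range (N - (t + h) + 1), d k +
      ∑ k ∈ Finset.Ico (N - (t + h) + 1) (N - t + 1), d k -
      ∑ k ∈ Finset.range (N - (t + h) + 1), d k) =
      w * ∑ k ∈ Finset.Ico (N - (t + h) + 1) (N - t + 1), d k := by ring
  rw [h5]
  linarith

theorem self_le : ∑ k ∈ Finset.range (N + 1), d k * (w - d k) ≤ 2 * AA d w N 0 := by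
  have h1 : ∑ k ∈ Finset.range (N + 1), d k * (w - d k) ≤ ∑ k ∈ Finset.range (N + 1),
      (d k * (w - d (N - k)) + d (N - k) * (w - d k)) := by
    refine Finset.sum_le_sum fun k hk => ?_
    rw [Finset.mem_range] at hk
    exact ineq1 hw (hb k (by omega)) (hb _ (by omega)) (hb k (by omega))
  rw [Finset.sum_add_distrib] at h1
  have h2 : ∑ k ∈ Finset.range (N + 1), d k * (w - d (N - k)) = AA d w N 0 := rfl
  have h3 : ∑ k ∈ Finset.range (N + 1), d (N - k) * (w - d k) ≤ AA d w N 0 := by
    have := sub_sum (fun j => d j * (w - d (N - 0 - j))) (Finset.range (N + 1))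
      (N - 0 + 1) (fun k => N - k)
      (fun k hk => by rw [Finset.mem_range] at hk; omega)
      (fun k hk l hl h => by rw [Finset.mem_range] at hk hl; omega)
      (fun j hj => mul_nonneg (hb j (by omega)).1 (by linarith [(hb (N - 0 - j) (by omega)).2]))
    refine le_trans (le_of_eq ?_) this
    refine Finset.sum_congr rfl fun k hk => ?_
    rw [Finset.mem_range] at hk
    have e : N - 0 - (N - k) = k := by omega
    simp only [e]
  linarith

end

theorem sum_top (d : ℕ → ℝ) (N m : ℕ) (hm : m ≤ N) : ∑ i ∈ Finset.range m, d (N - i) =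
    ∑ k ∈ Finset.range (N + 1), d k - ∑ k ∈ Finset.range (N - m + 1), d k := by
  induction m with
  | zero => simp
  | succ m ih =>
    rw [Finset.sum_range_succ, ih (by omega)]
    have e2 : N - (m + 1) + 1 = N - m := by omega
    have e3 : ∑ k ∈ Finset.range (N - m + 1), d k =
        ∑ k ∈ Finset.range (N - m), d k + d (N - m) := Finset.sum_range_succ _ _
    rw [e2, e3]
    ring


set_option maxHeartbeats 4000000 in
/-- key quantitative lemma: a sequence that nearly satisfies `(n+1) d (n+1) = (d*d) n` and has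
averages near `1` cannot have a near-record value `w` bigger than about `1` -/
theorem record_le (η : ℝ) (hη : 0 < η) (hη1 : η ≤ 1 / 10) (ε : ℝ) (hε : ε = η ^ 2 / 2000)
    (N : ℕ) (hN : 100 ≤ ε * N) (w : ℝ) (hw : 0 < w) (d : ℕ → ℝ)
    (h0 : ∀ k ≤ N + 1, 0 ≤ d k) (hle : ∀ k ≤ N + 1, d k ≤ w)
    (hD : ∀ n ≤ N, |(∑ k ∈ Finset.range (n + 1), d k) - n| ≤ ε * N)
    (hE : ∀ n ≤ N, N ≤ 2 * n →
      |((n : ℝ) + 1) * d (n + 1) - ∑ k ∈ Finset.range (n + 1), d k * d (n - k)| ≤ ε * w * N)
    (hrec : (1 - ε) * w ≤ d (N + 1)) (hcomp : 0.6 * d (N + 1) ≤ d N) :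
    w ≤ 1 + 3 * η := by
  classical
  have hεpos : 0 < ε := by rw [hε]; positivity
  have hεη : ε ≤ η / 20000 := by rw [hε]; nlinarith
  have hNpos : (0 : ℝ) < N := by
    by_contra hcon
    push Not at hcon
    nlinarith
  obtain ⟨P, hP⟩ : ∃ P, P = w * (N : ℝ) := ⟨_, rfl⟩
  have hPpos : 0 < P := by rw [hP]; positivity
  have hb : ∀ k ≤ N, 0 ≤ d k ∧ d k ≤ w := fun k hk => ⟨h0 k (by omega), hle k (by omega)⟩
  have hwP : w ≤ ε * P / 100 := by
    rw [hP]
    have := mul_le_mul_of_nonneg_left hN hw.le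
    linarith
  -- (1)
  have key1 : ∀ t : ℕ, 2 * t ≤ N →
      |AA d w N t - ((N : ℝ) - t) * (w - d (N + 1 - t))| ≤ 3 * ε * P := by
    intro t ht
    have hn : ((N - t : ℕ) : ℝ) = (N : ℝ) - t := by
      rw [Nat.cast_sub (by omega)]
    have a1 := hD (N - t) (by omega)
    have a2 := hE (N - t) (by omega) (by omega)
    have e1 : AA d w N t = w * (∑ k ∈ Finset.range (N - t + 1), d k) -
        ∑ k ∈ Finset.range (N - t + 1), d k * d (N - t - k) := by
      unfold AA
      rw [Finset.mul_sum, ← Finset.sum_sub_distrib]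
      refine Finset.sum_congr rfl fun k _ => ?_
      ring
    have e2 : N + 1 - t = N - t + 1 := by omega
    rw [e2]
    rw [hn] at a1 a2
    have hd0 := h0 (N - t + 1) (by omega)
    have hd1 := hle (N - t + 1) (by omega)
    have a3 : |w * (∑ k ∈ Finset.range (N - t + 1), d k) - w * ((N : ℝ) - t)| ≤ ε * P := by
      rw [← mul_sub, abs_mul, abs_of_pos hw, hP]
      have := mul_le_mul_of_nonneg_left a1 hw.le
      linarith
    have a4 : ε * w * (N : ℝ) = ε * P := by rw [hP]; ring
    rw [a4] at a2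
    rw [abs_le] at a2 a3 ⊢
    rw [e1]
    have hεP : 0 ≤ ε * P := by positivity
    constructor <;> nlinarith [a2.1, a2.2, a3.1, a3.2]
  have hεP : 0 < ε * P := by positivity
  -- (2)
  have key2 : AA d w N 0 ≤ 4 * ε * P := by
    have h1 := (abs_le.mp (key1 0 (by omega))).2
    have h2 : ((N : ℝ) - (0 : ℕ)) * (w - d (N + 1 - 0)) ≤ ε * P := by
      have e : N + 1 - 0 = N + 1 := rfl
      rw [e, Nat.cast_zero, sub_zero, hP]
      have : (N : ℝ) * (w - d (N + 1)) ≤ N * (ε * w) :=
        mul_le_mul_of_nonneg_left (by linarith) hNpos.le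
      linarith
    linarith
  have hnn := AA_nonneg hw hb
  -- (6)
  have key6 : ∑ k ∈ Finset.range (N + 1), d k * (w - d k) ≤ 8 * ε * P := by
    have := self_le hw hb
    linarith
  -- (5)
  have key5 : ∀ t h : ℕ, t + h ≤ N →
      AA d w N t ≤ AA d w N (t + h) + AA d w N h + 4 * ε * P + w * h + 2 * ε * P := by
    intro t h hth
    have b1 := AA_le hw hb hth
    have b2 := CC_le hw hb (show h ≤ N by omega)
    have c1 := (abs_le.mp (hD (N - t) (by omega))).2
    have c2 := (abs_le.mp (hD (N - (t + h)) (by omega))).1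
    have e1 : ((N - t : ℕ) : ℝ) = (N : ℝ) - t := by rw [Nat.cast_sub (by omega)]
    have e2 : ((N - (t + h) : ℕ) : ℝ) = (N : ℝ) - (t + h) := by
      rw [Nat.cast_sub (by omega)]; push_cast; ring
    rw [e1] at c1
    rw [e2] at c2
    have c3 : ∑ k ∈ Finset.range (N - t + 1), d k - ∑ k ∈ Finset.range (N - (t + h) + 1), d k ≤
        h + 2 * (ε * N) := by linarith
    have c4 := mul_le_mul_of_nonneg_left c3 hw.le
    have c5 : w * (h + 2 * (ε * N)) = w * h + 2 * ε * P := by rw [hP]; ring
    rw [c5] at c4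
    linarith
  -- parameters
  obtain ⟨κ, hκ⟩ : ∃ κ, κ = η / 8 := ⟨_, rfl⟩
  have hκpos : 0 < κ := by rw [hκ]; positivity
  obtain ⟨m, hm⟩ : ∃ m : ℕ, m = ⌊κ * N⌋₊ := ⟨_, rfl⟩
  have hm1 : (m : ℝ) ≤ κ * N := by rw [hm]; exact Nat.floor_le (by positivity)
  have hm2 : κ * N - 1 < m := by rw [hm]; exact Nat.sub_one_lt_floor _
  have hκN : 100 * 2500 ≤ κ * N := by
    have : 20000 * (ε * N) ≤ η * N := by nlinarith
    rw [hκ]; nlinarith
  have hmpos : 1 ≤ m := by
    have : (1 : ℝ) < m := by linarith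
    exact_mod_cast this.le
  have hκ80 : κ ≤ 1 / 80 := by rw [hκ]; linarith
  have hmN : (m : ℝ) ≤ N / 80 := by nlinarith
  have hmN' : 80 * m ≤ N := by
    have : (80 : ℝ) * m ≤ N := by linarith
    exact_mod_cast this
  -- (7)
  obtain ⟨H, hH⟩ : ∃ H : Finset ℕ, H = (Finset.range m).filter fun i => (1 - κ) * w ≤ d (N - i) :=
    ⟨_, rfl⟩
  have hsum := sum_top d N m (by omega)
  have hsumlow : (m : ℝ) - 2 * (ε * N) ≤ ∑ i ∈ Finset.range m, d (N - i) := by
    have c1 := (abs_le.mp (hD N le_rfl)).1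
    have c2 := (abs_le.mp (hD (N - m) (by omega))).2
    have e1 : ((N - m : ℕ) : ℝ) = (N : ℝ) - m := by rw [Nat.cast_sub (by omega)]
    rw [e1] at c2
    rw [hsum]
    linarith
  have hsumup : ∑ i ∈ Finset.range m, d (N - i) ≤ (m : ℝ) + 2 * (ε * N) := by
    have c1 := (abs_le.mp (hD N le_rfl)).2
    have c2 := (abs_le.mp (hD (N - m) (by omega))).1
    have e1 : ((N - m : ℕ) : ℝ) = (N : ℝ) - m := by rw [Nat.cast_sub (by omega)]
    rw [e1] at c2
    rw [hsum]
    linarith
  have key7 : η * N / 20 ≤ w * (H.card : ℝ) := by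
    have c1 : ∑ i ∈ Finset.range m, d (N - i) ≤ ∑ i ∈ Finset.range m,
        ((if (1 - κ) * w ≤ d (N - i) then w else 0) + d (N - i) * (w - d (N - i)) / (κ * w)) := by
      refine Finset.sum_le_sum fun i hi => ?_
      rw [Finset.mem_range] at hi
      obtain ⟨b1, b2⟩ := hb (N - i) (by omega)
      have b3 : 0 ≤ d (N - i) * (w - d (N - i)) / (κ * w) :=
        div_nonneg (mul_nonneg b1 (by linarith)) (by positivity)
      split_ifs with hcase
      · linarith
      · push Not at hcase
        rw [zero_add, le_div_iff₀ (by positivity)]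
        exact mul_le_mul_of_nonneg_left (by linarith) b1
    rw [Finset.sum_add_distrib, ← Finset.sum_filter, ← hH, Finset.sum_const, nsmul_eq_mul,
      ← Finset.sum_div] at c1
    have c2 : ∑ i ∈ Finset.range m, d (N - i) * (w - d (N - i)) ≤ 8 * ε * P := by
      refine le_trans ?_ key6
      exact sub_sum (fun j => d j * (w - d j)) (Finset.range m) (N + 1) (fun i => N - i)
        (fun k hk => by rw [Finset.mem_range] at hk; omega)
        (fun k hk l hl h => by rw [Finset.mem_range] at hk hl; omega)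
        (fun j hj => mul_nonneg (hb j (by omega)).1 (by linarith [(hb j (by omega)).2]))
    have c3 : (∑ i ∈ Finset.range m, d (N - i) * (w - d (N - i))) / (κ * w) ≤ 8 * ε * N / κ := by
      rw [div_le_div_iff₀ (by positivity) hκpos]
      have := mul_le_mul_of_nonneg_right c2 hκpos.le
      rw [hP] at this
      linarith
    have c4 : 8 * ε * N / κ = 4 * η * N / 125 := by
      rw [hκ, hε]; field_simp; ring
    rw [c4] at c3
    have c5 : 2 * (ε * N) ≤ η * N / 10000 := by nlinarith
    have c6 : (1 : ℝ) ≤ η * N / 10000 := by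
      have : η * N = 8 * (κ * N) := by rw [hκ]; ring
      rw [this]; linarith
    have c7 : κ * N = η * N / 8 := by rw [hκ]; ring
    rw [c7] at hm2
    linarith
  -- facts on H
  have hHm : ∀ i ∈ H, i < m ∧ (1 - κ) * w ≤ d (N - i) := by
    intro i hi
    rw [hH, Finset.mem_filter, Finset.mem_range] at hi
    exact hi
  -- (8)
  have claim : ∀ t ≤ m, AA d w N t ≤ P / 2 → AA d w N t < η * P := by
    intro t ht hA
    by_contra hcon
    push Not at hcon
    have ht1 : 1 ≤ t := by
      by_contra ht0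
      have : t = 0 := by omega
      rw [this] at hcon
      nlinarith
    have hterm : ∀ i ∈ H, η / 8 * w ^ 2 ≤ d (N - t - i) * (w - d (N - t - i)) := by
      intro i hi
      obtain ⟨hi1, hi2⟩ := hHm i hi
      have e1 : N + 1 - (i + 1) = N - i := by omega
      have e2 : N + 1 - (t + (i + 1)) = N - t - i := by omega
      have g1 := (abs_le.mp (key1 (i + 1) (by omega))).2
      rw [e1] at g1
      have g2 : ((N : ℝ) - (i + 1 : ℕ)) * (w - d (N - i)) ≤ κ * P := by
        have q1 : (N : ℝ) - (i + 1 : ℕ) ≤ N := by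
          have : (0 : ℝ) ≤ ((i + 1 : ℕ) : ℝ) := Nat.cast_nonneg _
          linarith
        have q2 : w - d (N - i) ≤ κ * w := by linarith
        have q3 : 0 ≤ w - d (N - i) := by linarith [(hb (N - i) (by omega)).2]
        calc ((N : ℝ) - (i + 1 : ℕ)) * (w - d (N - i)) ≤ N * (w - d (N - i)) :=
              mul_le_mul_of_nonneg_right q1 q3
          _ ≤ N * (κ * w) := mul_le_mul_of_nonneg_left q2 hNpos.le
          _ = κ * P := by rw [hP]; ring
      have g3 : AA d w N (i + 1) ≤ (κ + 3 * ε) * P := by linarith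
      have g4 := AA_sub hw hb (s := t) (t := i + 1) (by omega)
      have g5 := key5 t (i + 1) (by omega)
      have g6 : w * ((i + 1 : ℕ) : ℝ) ≤ κ * P := by
        have : ((i + 1 : ℕ) : ℝ) ≤ κ * N := by
          have : ((i + 1 : ℕ) : ℝ) ≤ m := by exact_mod_cast hi1
          linarith
        have := mul_le_mul_of_nonneg_left this hw.le
        rw [hP]; linarith
      have g7 := abs_le.mp (key1 (t + (i + 1)) (by omega))
      rw [e2] at g7
      obtain ⟨n', hn'⟩ : ∃ n' : ℝ, n' = (N : ℝ) - ((t + (i + 1) : ℕ) : ℝ) := ⟨_, rfl⟩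
      rw [← hn'] at g7
      have hn1 : n' ≤ N := by
        have : (0 : ℝ) ≤ ((t + (i + 1) : ℕ) : ℝ) := Nat.cast_nonneg _
        linarith
      have hn2 : 39 / 40 * (N : ℝ) ≤ n' := by
        have : ((t + (i + 1) : ℕ) : ℝ) ≤ 2 * m := by
          have : t + (i + 1) ≤ 2 * m := by omega
          exact_mod_cast this
        rw [hn']; linarith
      obtain ⟨x, hx⟩ : ∃ x, x = d (N - t - i) := ⟨_, rfl⟩
      rw [← hx] at g7 ⊢
      obtain ⟨hx0, hx1⟩ := hb (N - t - i) (by omega)
      rw [← hx] at hx0 hx1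
      have hwx : 0 ≤ w - x := by linarith
      -- upper bound
      have u1 : n' * (w - x) ≤ (1 / 2 + κ + 10 * ε) * P := by linarith [g7.1]
      have u2 : 39 / 40 * (N : ℝ) * (w - x) ≤ (1 / 2 + κ + 10 * ε) * P :=
        le_trans (mul_le_mul_of_nonneg_right hn2 hwx) u1
      have u3 : 39 / 40 * (w - x) ≤ (1 / 2 + κ + 10 * ε) * w := by
        have : (N : ℝ) * (39 / 40 * (w - x)) ≤ N * ((1 / 2 + κ + 10 * ε) * w) := by
          rw [hP] at u2; linarith
        exact le_of_mul_le_mul_left this hNpos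
      have hε5 : ε ≤ 1 / 200000 := by linarith
      have u4 : (1 / 2 + κ + 10 * ε) * w ≤ (21 / 40) * w :=
        mul_le_mul_of_nonneg_right (by linarith) hw.le
      have u5 : w / 4 ≤ x := by linarith
      -- lower bound
      have l1 : (η - κ - κ - 12 * ε) * P ≤ n' * (w - x) := by
        have := g7.2
        nlinarith
      have l2 : (η - κ - κ - 12 * ε) * P ≤ N * (w - x) :=
        l1.trans (mul_le_mul_of_nonneg_right hn1 hwx)
      have l3 : (η - κ - κ - 12 * ε) * w ≤ w - x := by
        have : (N : ℝ) * ((η - κ - κ - 12 * ε) * w) ≤ N * (w - x) := by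
          rw [hP] at l2; linarith
        exact le_of_mul_le_mul_left this hNpos
      have l4 : η / 2 * w ≤ (η - κ - κ - 12 * ε) * w :=
        mul_le_mul_of_nonneg_right (by rw [hκ]; linarith) hw.le
      have l5 : η / 2 * w ≤ w - x := l4.trans l3
      calc η / 8 * w ^ 2 = (w / 4) * (η / 2 * w) := by ring
        _ ≤ x * (w - x) := mul_le_mul u5 l5 (by positivity) hx0
    have hcard : (H.card : ℝ) * (η / 8 * w ^ 2) ≤ 8 * ε * P := by
      have c1 : (H.card : ℝ) * (η / 8 * w ^ 2) ≤ ∑ i ∈ H, d (N - t - i) * (w - d (N - t - i)) := by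
        rw [← nsmul_eq_mul, ← Finset.sum_const]
        exact Finset.sum_le_sum hterm
      refine c1.trans (le_trans ?_ key6)
      exact sub_sum (fun j => d j * (w - d j)) H (N + 1) (fun i => N - t - i)
        (fun k hk => by omega)
        (fun k hk l hl h => by have := (hHm k hk).1; have := (hHm l hl).1; omega)
        (fun j hj => mul_nonneg (hb j (by omega)).1 (by linarith [(hb j (by omega)).2]))
    have h8 : (w * (H.card : ℝ)) * (η / 8) ≤ 8 * ε * N := by
      have : w * ((w * (H.card : ℝ)) * (η / 8)) ≤ w * (8 * ε * N) := by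
        rw [hP] at hcard; linarith
      exact le_of_mul_le_mul_left this hw
    have h9 : (η * N / 20) * (η / 8) ≤ 8 * ε * N :=
      le_trans (mul_le_mul_of_nonneg_right key7 (by positivity)) h8
    rw [hε] at h9
    have h10 : 0 < η ^ 2 * N := by positivity
    nlinarith
  -- (9)
  have hA1 : AA d w N 1 ≤ P / 2 := by
    have g1 := (abs_le.mp (key1 1 (by omega))).2
    have e1 : N + 1 - 1 = N := by omega
    rw [e1] at g1
    have g2 : w - d N ≤ (2 / 5 + 3 / 5 * ε) * w := by
      have : (0.6 : ℝ) * ((1 - ε) * w) ≤ 0.6 * d (N + 1) := mul_le_mul_of_nonneg_left hrec (by norm_num)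
      norm_num at this hcomp ⊢
      linarith
    have g3 : ((N : ℝ) - (1 : ℕ)) * (w - d N) ≤ (2 / 5 + 3 / 5 * ε) * P := by
      have q3 : 0 ≤ w - d N := by linarith [(hb N le_rfl).2]
      have q1 : (N : ℝ) - (1 : ℕ) ≤ N := by push_cast; linarith
      calc ((N : ℝ) - (1 : ℕ)) * (w - d N) ≤ N * (w - d N) := mul_le_mul_of_nonneg_right q1 q3
        _ ≤ N * ((2 / 5 + 3 / 5 * ε) * w) := mul_le_mul_of_nonneg_left g2 hNpos.le
        _ = (2 / 5 + 3 / 5 * ε) * P := by rw [hP]; ring
    have hε5 : ε ≤ 1 / 200000 := by linarith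
    have h5 : ε * P ≤ 1 / 200000 * P := mul_le_mul_of_nonneg_right hε5 hPpos.le
    have h6 : AA d w N 1 ≤ (2 / 5 + 3 / 5 * ε) * P + 3 * ε * P := by
      generalize ((N : ℝ) - (1 : ℕ)) * (w - d N) = zz at g1 g3
      linarith
    have h7 : (2 / 5 + 3 / 5 * ε) * P + 3 * ε * P = 2 / 5 * P + 18 / 5 * (ε * P) := by ring
    rw [h7] at h6
    linarith
  have hA1' : AA d w N 1 < η * P := claim 1 hmpos hA1
  have key9 : ∀ t ≤ m, AA d w N t < η * P := by
    intro t
    induction t with
    | zero =>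
      intro _
      nlinarith
    | succ t ih =>
      intro ht
      apply claim (t + 1) ht
      have g1 := ih (by omega)
      have g2 := AA_sub hw hb (s := t) (t := 1) (by omega)
      have hε5 : ε ≤ 1 / 200000 := by linarith
      have : ε * P ≤ 1 / 200000 * P := mul_le_mul_of_nonneg_right hε5 hPpos.le
      have : η * P ≤ 1 / 10 * P := mul_le_mul_of_nonneg_right hη1 hPpos.le
      linarith
  -- (10)
  have hlow : ∀ i ∈ Finset.range m, (1 - 2 * η) * w ≤ d (N - i) := by
    intro i hi
    rw [Finset.mem_range] at hi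
    have g1 := (abs_le.mp (key1 (i + 1) (by omega))).1
    have e1 : N + 1 - (i + 1) = N - i := by omega
    rw [e1] at g1
    have g2 := key9 (i + 1) (by omega)
    obtain ⟨n', hn'⟩ : ∃ n' : ℝ, n' = (N : ℝ) - ((i + 1 : ℕ) : ℝ) := ⟨_, rfl⟩
    rw [← hn'] at g1
    have hn2 : 79 / 80 * (N : ℝ) ≤ n' := by
      have : ((i + 1 : ℕ) : ℝ) ≤ m := by exact_mod_cast hi
      rw [hn']; linarith
    have q3 : 0 ≤ w - d (N - i) := by linarith [(hb (N - i) (by omega)).2]
    have u1 : n' * (w - d (N - i)) ≤ (η + 3 * ε) * P := by linarith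
    have u2 : 79 / 80 * (N : ℝ) * (w - d (N - i)) ≤ (η + 3 * ε) * P :=
      le_trans (mul_le_mul_of_nonneg_right hn2 q3) u1
    have u3 : 79 / 80 * (w - d (N - i)) ≤ (η + 3 * ε) * w := by
      have : (N : ℝ) * (79 / 80 * (w - d (N - i))) ≤ N * ((η + 3 * ε) * w) := by
        rw [hP] at u2; linarith
      exact le_of_mul_le_mul_left this hNpos
    have u4 : (η + 3 * ε) * w ≤ (79 / 40 * η) * w :=
      mul_le_mul_of_nonneg_right (by linarith) hw.le
    linarith
  have hfin : (m : ℝ) * ((1 - 2 * η) * w) ≤ m + 2 * (ε * N) := by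
    refine le_trans ?_ hsumup
    rw [← nsmul_eq_mul]
    have := Finset.sum_le_sum hlow
    rw [Finset.sum_const, Finset.card_range] at this
    exact this
  have hm3 : κ * N / 2 ≤ m := by linarith
  have hεm : 2 * (ε * N) ≤ (η / 10) * m := by
    have a1 : 2 * (ε * N) ≤ (η / 10) * (κ * N / 2) := by
      rw [hε, hκ]
      have : 0 < η ^ 2 * N := by positivity
      nlinarith
    exact a1.trans (mul_le_mul_of_nonneg_left hm3 (by positivity))
  have hmpos' : (0 : ℝ) < m := by exact_mod_cast hmpos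
  have hfin2 : (1 - 2 * η) * w ≤ 1 + η / 10 := by
    have : (m : ℝ) * ((1 - 2 * η) * w) ≤ m * (1 + η / 10) := by linarith
    exact le_of_mul_le_mul_left this hmpos'
  by_contra hcon
  push Not at hcon
  nlinarith

end Pool.Agent.Helper101.Srt
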