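import Mathlib
import Pool.Agent.Helper101.Srt.Rec
set_option autoImplicit false
open Filter Topology
namespace Pool.Agent.Helper101.Srt



theorem tauberT_unif (d : ℕ → ℝ) (hd : ∀ n, 0 ≤ d n)
    (hD : Tendsto (fun n : ℕ => (∑ k ∈ Finset.range (n + 1), d k) / (n : ℝ)) atTop (𝓝 1))
    (e : ℝ) (he0 : 0 < e) : ∃ N1 : ℕ, ∀ N ≥ N1, ∀ n ≤ N,
      |(∑ k ∈ Finset.range (n + 1), d k) - n| ≤ e * N := by
  rw [Metric.tendsto_atTop] at hD
  obtain ⟨n1, hn1⟩ := hD e he0
  obtain ⟨C, hC⟩ : ∃ C : ℝ, C = (∑ k ∈ Finset.range (n1 + 1), d k) + n1 := ⟨_, rfl⟩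
  obtain ⟨N1, hN1⟩ := exists_nat_ge (C / e)
  refine ⟨N1, ?_⟩
  intro N hN n hn
  have hNr : (N1 : ℝ) ≤ N := by exact_mod_cast hN
  rcases le_or_gt n n1 with h | h
  · have h1 : ∑ k ∈ Finset.range (n + 1), d k ≤ ∑ k ∈ Finset.range (n1 + 1), d k :=
      Finset.sum_le_sum_of_subset_of_nonneg
        (Finset.range_subset_range.2 (by omega)) (fun k _ _ => hd k)
    have h2 : 0 ≤ ∑ k ∈ Finset.range (n + 1), d k := Finset.sum_nonneg fun k _ => hd k
    have h3 : (n : ℝ) ≤ n1 := by exact_mod_cast h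
    have h4 : (0 : ℝ) ≤ n := Nat.cast_nonneg n
    have h5 : C ≤ e * N := by
      rw [div_le_iff₀ he0] at hN1
      nlinarith
    rw [abs_le]
    constructor <;> linarith
  · have h1 := hn1 n h.le
    have hn0 : (0 : ℝ) < n := by exact_mod_cast (by omega : 0 < n)
    rw [Real.dist_eq] at h1
    have h2 : (∑ k ∈ Finset.range (n + 1), d k) - n =
        ((∑ k ∈ Finset.range (n + 1), d k) / (n : ℝ) - 1) * n := by
      field_simp
    rw [h2, abs_mul, abs_of_pos hn0]
    have h3 : (n : ℝ) ≤ N := by exact_mod_cast hn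
    calc |(∑ k ∈ Finset.range (n + 1), d k) / (n : ℝ) - 1| * n ≤ e * n :=
          mul_le_mul_of_nonneg_right h1.le hn0.le
      _ ≤ e * N := mul_le_mul_of_nonneg_left h3 he0.le

theorem tauberT_bdd (d : ℕ → ℝ) (hd : ∀ n, 0 ≤ d n)
    (hD : Tendsto (fun n : ℕ => (∑ k ∈ Finset.range (n + 1), d k) / (n : ℝ)) atTop (𝓝 1))
    (hq : ∀ n, 1 ≤ n → 0.6 * d (n + 1) ≤ d n)
    (he : ∀ ε : ℝ, 0 < ε → ∃ N0 : ℕ, ∀ n : ℕ, N0 ≤ n → ∀ w : ℝ, (∀ k ≤ n, d k ≤ w) →
      |((n : ℝ) + 1) * d (n + 1) - ∑ k ∈ Finset.range (n + 1), d k * d (n - k)| ≤ ε * n * w) :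
    ∃ w0 : ℝ, 0 < w0 ∧ ∀ k, d k ≤ w0 := by
  classical
  by_contra hcon
  push Not at hcon
  obtain ⟨ε, hε⟩ : ∃ ε : ℝ, ε = (1 / 10 : ℝ) ^ 2 / 2000 := ⟨_, rfl⟩
  have hεp : 0 < ε := by rw [hε]; norm_num
  obtain ⟨N1, hN1⟩ := tauberT_unif d hd hD ε hεp
  obtain ⟨N0, hN0⟩ := he ε hεp
  obtain ⟨N3, hN3⟩ := exists_nat_ge (100 / ε)
  obtain ⟨N2, hN2⟩ : ∃ N2 : ℕ, N2 = N1 + 2 * N0 + N3 + 1 := ⟨_, rfl⟩
  obtain ⟨W, hW⟩ : ∃ W : ℝ, W = 2 + ∑ k ∈ Finset.range (N2 + 1), d k := ⟨_, rfl⟩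
  have hSnn : 0 ≤ ∑ k ∈ Finset.range (N2 + 1), d k := Finset.sum_nonneg fun k _ => hd k
  have hex : ∃ n, W < d n := hcon W (by linarith)
  have hn := Nat.find_spec hex
  have hmin : ∀ k < Nat.find hex, d k ≤ W := fun k hk => not_lt.1 (Nat.find_min hex hk)
  generalize Nat.find hex = n at hn hmin
  have hnN2 : N2 < n := by
    by_contra h
    push Not at h
    have : d n ≤ ∑ k ∈ Finset.range (N2 + 1), d k :=
      Finset.single_le_sum (f := d) (fun k _ => hd k) (Finset.mem_range.2 (by omega))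
    linarith
  obtain ⟨N, rfl⟩ : ∃ N, n = N + 1 := ⟨n - 1, by omega⟩
  have hNr : (N3 : ℝ) ≤ N := by exact_mod_cast (by omega : N3 ≤ N)
  have hle : ∀ k ≤ N + 1, d k ≤ d (N + 1) := by
    intro k hk
    rcases Nat.lt_or_ge k (N + 1) with h | h
    · exact (hmin k h).trans hn.le
    · rw [show k = N + 1 by omega]
  have hres := record_le (1 / 10) (by norm_num) le_rfl ε hε N (by
      rw [div_le_iff₀ hεp] at hN3
      nlinarith) (d (N + 1)) (by linarith) d (fun k _ => hd k) hle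
    (fun n hn => hN1 N (by omega) n hn) (by
      intro n hn1 hn2
      have h1 := hN0 n (by omega) (d (N + 1)) (fun k hk => hle k (by omega))
      refine h1.trans ?_
      have h2 : (n : ℝ) ≤ N := by exact_mod_cast hn1
      have h3 : 0 ≤ ε * d (N + 1) := by
        have := hd (N + 1)
        positivity
      nlinarith) (by
      have := hd (N + 1)
      nlinarith) (hq N (by omega))
  linarith

theorem tauberT_up (d : ℕ → ℝ) (hd : ∀ n, 0 ≤ d n)
    (hD : Tendsto (fun n : ℕ => (∑ k ∈ Finset.range (n + 1), d k) / (n : ℝ)) atTop (𝓝 1))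
    (hq : ∀ n, 1 ≤ n → 0.6 * d (n + 1) ≤ d n)
    (he : ∀ ε : ℝ, 0 < ε → ∃ N0 : ℕ, ∀ n : ℕ, N0 ≤ n → ∀ w : ℝ, (∀ k ≤ n, d k ≤ w) →
      |((n : ℝ) + 1) * d (n + 1) - ∑ k ∈ Finset.range (n + 1), d k * d (n - k)| ≤ ε * n * w)
    (w0 : ℝ) (hw0 : 0 < w0) (hdw : ∀ k, d k ≤ w0) (e : ℝ) (he0 : 0 < e) :
    ∃ K, ∀ k ≥ K, d k ≤ 1 + e := by
  classical
  obtain ⟨S, hS⟩ : ∃ S : Set ℝ, S = {x | 0 ≤ x ∧ ∃ K, ∀ k ≥ K, d k ≤ x} := ⟨_, rfl⟩
  have hSne : S.Nonempty := ⟨w0, by rw [hS]; exact ⟨hw0.le, 0, fun k _ => hdw k⟩⟩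
  have hSbd : BddBelow S := ⟨0, by rintro x hx; rw [hS] at hx; exact hx.1⟩
  obtain ⟨M, hM⟩ : ∃ M, M = sInf S := ⟨_, rfl⟩
  have hMup : ∀ δ > 0, ∃ K, ∀ k ≥ K, d k ≤ M + δ := by
    intro δ hδ
    obtain ⟨x, hx, hx2⟩ := exists_lt_of_csInf_lt hSne (by rw [← hM]; linarith : sInf S < M + δ)
    rw [hS] at hx
    obtain ⟨-, K, hK⟩ := hx
    exact ⟨K, fun k hk => (hK k hk).trans hx2.le⟩
  have hMlow : ∀ δ > 0, 0 ≤ M - δ → ∀ K, ∃ k ≥ K, M - δ < d k := by
    intro δ hδ hMδ K
    by_contra hcon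
    push Not at hcon
    have hmem : M - δ ∈ S := by
      rw [hS]; exact ⟨hMδ, K, hcon⟩
    have := csInf_le hSbd hmem
    rw [← hM] at this
    linarith
  have key : ∀ η : ℝ, 0 < η → η ≤ 1 / 10 → M ≤ 1 + 3 * η := by
    intro η hη hη1
    by_contra hcon
    push Not at hcon
    have hM1 : 1 < M := by linarith
    obtain ⟨ε, hε⟩ : ∃ ε : ℝ, ε = η ^ 2 / 2000 := ⟨_, rfl⟩
    have hεp : 0 < ε := by rw [hε]; positivity
    have hε1 : ε ≤ 1 := by rw [hε]; nlinarith
    obtain ⟨w, hw⟩ : ∃ w : ℝ, w = M * (1 + ε / 4) := ⟨_, rfl⟩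
    have hwp : 0 < w := by rw [hw]; positivity
    obtain ⟨K1, hK1⟩ := hMup (M * (ε / 4)) (by positivity)
    have hK1' : ∀ k ≥ K1, d k ≤ w := fun k hk => by
      have := hK1 k hk
      rw [hw]; linarith
    obtain ⟨N1, hN1⟩ := tauberT_unif d hd hD (ε / 2) (by positivity)
    obtain ⟨N0, hN0⟩ := he (ε * w / (2 * w0)) (by positivity)
    obtain ⟨N3, hN3⟩ := exists_nat_ge (100 / ε)
    obtain ⟨N4, hN4⟩ := exists_nat_ge (K1 * w0 / (ε / 2))
    obtain ⟨N5, hN5⟩ := exists_nat_ge (2 * K1 * w0 ^ 2 / (ε * w / 2))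
    obtain ⟨n, hn, hnd⟩ := hMlow (M * (ε / 4)) (by positivity) (by nlinarith)
      (N1 + 2 * N0 + N3 + N4 + N5 + 2 * K1 + 2)
    obtain ⟨N, rfl⟩ : ∃ N, n = N + 1 := ⟨n - 1, by omega⟩
    obtain ⟨d', hd'⟩ : ∃ d' : ℕ → ℝ, d' = fun k => if k < K1 then 0 else d k := ⟨_, rfl⟩
    have hd'0 : ∀ k, 0 ≤ d' k := by
      intro k; rw [hd']; simp only; split_ifs
      · exact le_rfl
      · exact hd k
    have hd'le : ∀ k, d' k ≤ d k := by
      intro k; rw [hd']; simp only; split_ifs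
      · exact hd k
      · exact le_rfl
    have hd'w : ∀ k, d' k ≤ w := by
      intro k; rw [hd']; simp only; split_ifs with h
      · exact hwp.le
      · exact hK1' k (by omega)
    have hd'eq : ∀ k, K1 ≤ k → d' k = d k := by
      intro k hk; rw [hd']; simp only; rw [if_neg (by omega)]
    -- cast facts
    have c3 : (N3 : ℝ) ≤ N := by exact_mod_cast (by omega : N3 ≤ N)
    have c4 : (N4 : ℝ) ≤ N := by exact_mod_cast (by omega : N4 ≤ N)
    have c5 : (N5 : ℝ) ≤ N := by exact_mod_cast (by omega : N5 ≤ N)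
    have b3 : 100 ≤ ε * N := by
      rw [div_le_iff₀ hεp] at hN3
      nlinarith
    have b4 : K1 * w0 ≤ ε / 2 * N := by
      rw [div_le_iff₀ (by positivity)] at hN4
      nlinarith
    have b5 : 2 * K1 * w0 ^ 2 ≤ ε * w / 2 * N := by
      rw [div_le_iff₀ (by positivity)] at hN5
      have : 0 < ε * w / 2 := by positivity
      nlinarith
    -- sum of differences
    have hdiff : ∀ n : ℕ, ∑ k ∈ Finset.range (n + 1), (d k - d' k) ≤ K1 * w0 := by
      intro n
      have h1 : ∀ k ∈ Finset.range (n + 1), d k - d' k ≤ if k ∈ Finset.range K1 then w0 else 0 := by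
        intro k _
        split_ifs with h
        · have := hd'0 k
          have := hdw k
          linarith
        · rw [Finset.mem_range] at h
          rw [hd'eq k (by omega)]
          linarith
      refine (Finset.sum_le_sum h1).trans ?_
      rw [Finset.sum_ite_mem, Finset.sum_const, nsmul_eq_mul]
      apply mul_le_mul_of_nonneg_right _ hw0.le
      have : (Finset.range (n + 1) ∩ Finset.range K1).card ≤ K1 := by
        refine (Finset.card_le_card Finset.inter_subset_right).trans ?_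
        rw [Finset.card_range]
      exact_mod_cast this
    have hres := record_le η hη hη1 ε hε N b3 w hwp d' (fun k _ => hd'0 k) (fun k _ => hd'w k)
      (by
        intro n hn1
        have h1 := hN1 N (by omega) n hn1
        have h2 := hdiff n
        have h3 : 0 ≤ ∑ k ∈ Finset.range (n + 1), (d k - d' k) :=
          Finset.sum_nonneg fun k _ => by linarith [hd'le k]
        rw [Finset.sum_sub_distrib] at h2 h3
        rw [abs_le] at h1 ⊢
        constructor <;> linarith [h1.1, h1.2])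
      (by
        intro n hn1 hn2
        have h1 := hN0 n (by omega) w0 (fun k _ => hdw k)
        have h2 : (n : ℝ) ≤ N := by exact_mod_cast hn1
        have h3 : ε * w / (2 * w0) * n * w0 ≤ ε * w / 2 * N := by
          have e1 : ε * w / (2 * w0) * n * w0 = ε * w / 2 * n := by field_simp
          rw [e1]
          exact mul_le_mul_of_nonneg_left h2 (by positivity)
        have h4 : ∑ k ∈ Finset.range (n + 1), d k * d (n - k) -
            ∑ k ∈ Finset.range (n + 1), d' k * d' (n - k) =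
            ∑ k ∈ Finset.range (n + 1), (d k - d' k) * d (n - k) +
            ∑ k ∈ Finset.range (n + 1), d' k * (d (n - k) - d' (n - k)) := by
          rw [← Finset.sum_sub_distrib, ← Finset.sum_add_distrib]
          apply Finset.sum_congr rfl
          intro k _
          ring
        have h5 : ∑ k ∈ Finset.range (n + 1), (d k - d' k) * d (n - k) ≤ K1 * w0 * w0 := by
          have : ∀ k ∈ Finset.range (n + 1), (d k - d' k) * d (n - k) ≤ (d k - d' k) * w0 :=
            fun k _ => mul_le_mul_of_nonneg_left (hdw _) (by linarith [hd'le k])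
          refine (Finset.sum_le_sum this).trans ?_
          rw [← Finset.sum_mul]
          exact mul_le_mul_of_nonneg_right (hdiff n) hw0.le
        have h6 : ∑ k ∈ Finset.range (n + 1), d' k * (d (n - k) - d' (n - k)) ≤ K1 * w0 * w0 := by
          have : ∀ k ∈ Finset.range (n + 1), d' k * (d (n - k) - d' (n - k)) ≤
              (d (n - k) - d' (n - k)) * w0 := fun k _ => by
            rw [mul_comm]
            exact mul_le_mul_of_nonneg_left ((hd'le k).trans (hdw k)) (by linarith [hd'le (n - k)])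
          refine (Finset.sum_le_sum this).trans ?_
          rw [← Finset.sum_mul]
          apply mul_le_mul_of_nonneg_right _ hw0.le
          have h7 := Finset.sum_range_reflect (fun k => d k - d' k) (n + 1)
          have h8 : ∑ k ∈ Finset.range (n + 1), (d (n - k) - d' (n - k)) =
              ∑ k ∈ Finset.range (n + 1), (d (n + 1 - 1 - k) - d' (n + 1 - 1 - k)) := by
            apply Finset.sum_congr rfl
            intro k _
            rw [show n + 1 - 1 - k = n - k by omega]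
          rw [h8, h7]
          exact hdiff n
        have h7 : 0 ≤ ∑ k ∈ Finset.range (n + 1), (d k - d' k) * d (n - k) :=
          Finset.sum_nonneg fun k _ => mul_nonneg (by linarith [hd'le k]) (hd _)
        have h8 : 0 ≤ ∑ k ∈ Finset.range (n + 1), d' k * (d (n - k) - d' (n - k)) :=
          Finset.sum_nonneg fun k _ => mul_nonneg (hd'0 k) (by linarith [hd'le (n - k)])
        rw [hd'eq (n + 1) (by omega)]
        rw [abs_le] at h1 ⊢
        constructor <;> nlinarith [h1.1, h1.2])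
      (by
        rw [hd'eq (N + 1) (by omega)]
        have h1 : (1 - ε) * w ≤ M - M * (ε / 4) := by
          rw [hw]
          nlinarith [mul_pos (by linarith : 0 < M) hεp, mul_pos (mul_pos (by linarith : 0 < M) hεp) hεp]
        linarith)
      (by
        rw [hd'eq (N + 1) (by omega), hd'eq N (by omega)]
        exact hq N (by omega))
    have h9 : M ≤ w := by
      rw [hw]
      nlinarith [mul_pos (by linarith : 0 < M) hεp]
    linarith
  have hM1 : M ≤ 1 + e / 2 := by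
    have h1 := key (min (1 / 10) (e / 6)) (by positivity) (min_le_left _ _)
    have h2 := min_le_right (1 / 10) (e / 6)
    linarith
  obtain ⟨K, hK⟩ := hMup (e / 2) (by positivity)
  exact ⟨K, fun k hk => by linarith [hK k hk]⟩

theorem tauberT_low (d : ℕ → ℝ) (hd : ∀ n, 0 ≤ d n)
    (hD : Tendsto (fun n : ℕ => (∑ k ∈ Finset.range (n + 1), d k) / (n : ℝ)) atTop (𝓝 1))
    (he : ∀ ε : ℝ, 0 < ε → ∃ N0 : ℕ, ∀ n : ℕ, N0 ≤ n → ∀ w : ℝ, (∀ k ≤ n, d k ≤ w) →
      |((n : ℝ) + 1) * d (n + 1) - ∑ k ∈ Finset.range (n + 1), d k * d (n - k)| ≤ ε * n * w)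
    (w0 : ℝ) (hw0 : 0 < w0) (hdw : ∀ k, d k ≤ w0) (e : ℝ) (he0 : 0 < e) (he1 : e ≤ 1)
    (K : ℕ) (hK : ∀ k ≥ K, d k ≤ 1 + e) :
    ∃ K', ∀ k ≥ K', 1 - 7 * e ≤ d k := by
  obtain ⟨B, hB⟩ : ∃ B : ℝ, B = w0 + 2 := ⟨_, rfl⟩
  obtain ⟨N1, hN1⟩ := tauberT_unif d hd hD e he0
  obtain ⟨N0, hN0⟩ := he (e / w0) (by positivity)
  obtain ⟨C, hC⟩ : ∃ C : ℝ, C = 4 + 2 * K * B ^ 2 := ⟨_, rfl⟩
  obtain ⟨N3, hN3⟩ := exists_nat_ge ((C + 1) / e)
  refine ⟨N0 + N1 + N3 + 1, ?_⟩
  intro m hm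
  obtain ⟨n, rfl⟩ : ∃ n, m = n + 1 := ⟨m - 1, by omega⟩
  have c3 : (N3 : ℝ) ≤ n := by exact_mod_cast (by omega : N3 ≤ n)
  have b3 : C + 1 ≤ e * n := by
    rw [div_le_iff₀ he0] at hN3
    nlinarith
  have h1 := hN0 n (by omega) w0 (fun k _ => hdw k)
  have h2 := hN1 n (by omega) n le_rfl
  have e1 : e / w0 * n * w0 = e * n := by field_simp
  rw [e1] at h1
  obtain ⟨c, hc⟩ : ∃ c : ℝ, c = 1 + e := ⟨_, rfl⟩
  have hBabs : ∀ k, |c - d k| ≤ B := by
    intro k
    have := hd k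
    have := hdw k
    rw [abs_le, hB, hc]
    constructor <;> linarith
  have hB0 : 0 ≤ B := by rw [hB]; linarith
  -- the convolution
  have h3 : ∑ k ∈ Finset.range (n + 1), d k * d (n - k) =
      ∑ k ∈ Finset.range (n + 1), (c * d k + c * d (n - k) - c ^ 2) +
      ∑ k ∈ Finset.range (n + 1), (c - d k) * (c - d (n - k)) := by
    rw [← Finset.sum_add_distrib]
    apply Finset.sum_congr rfl
    intro k _
    ring
  have h4 : ∑ k ∈ Finset.range (n + 1), d (n - k) = ∑ k ∈ Finset.range (n + 1), d k := by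
    have h7 := Finset.sum_range_reflect d (n + 1)
    rw [← h7]
    apply Finset.sum_congr rfl
    intro k _
    rw [show n + 1 - 1 - k = n - k by omega]
  have h5 : ∑ k ∈ Finset.range (n + 1), (c * d k + c * d (n - k) - c ^ 2) =
      2 * c * ∑ k ∈ Finset.range (n + 1), d k - (n + 1) * c ^ 2 := by
    rw [Finset.sum_sub_distrib, Finset.sum_add_distrib, ← Finset.mul_sum, ← Finset.mul_sum, h4,
      Finset.sum_const, Finset.card_range, nsmul_eq_mul]
    push_cast
    ring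
  have h6 : -(2 * K * B ^ 2) ≤ ∑ k ∈ Finset.range (n + 1), (c - d k) * (c - d (n - k)) := by
    have h7 : ∀ k ∈ Finset.range (n + 1), -((if k ∈ Finset.range K then B ^ 2 else 0) +
        (if n - k ∈ Finset.range K then B ^ 2 else 0)) ≤ (c - d k) * (c - d (n - k)) := by
      intro k _
      have h8 : -(B ^ 2) ≤ (c - d k) * (c - d (n - k)) := by
        have h9 : |(c - d k) * (c - d (n - k))| ≤ B * B := by
          rw [abs_mul]
          exact mul_le_mul (hBabs k) (hBabs _) (abs_nonneg _) hB0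
        have := (abs_le.1 h9).1
        linarith
      have hB2 : 0 ≤ B ^ 2 := by positivity
      by_cases hk : k ∈ Finset.range K
      · rw [if_pos hk]
        split_ifs <;> linarith
      · rw [if_neg hk]
        by_cases hk2 : n - k ∈ Finset.range K
        · rw [if_pos hk2]; linarith
        · rw [if_neg hk2, add_zero, neg_zero]
          rw [Finset.mem_range] at hk hk2
          apply mul_nonneg
          · rw [hc]; linarith [hK k (by omega)]
          · rw [hc]; linarith [hK (n - k) (by omega)]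
    refine le_trans ?_ (Finset.sum_le_sum h7)
    rw [Finset.sum_neg_distrib, Finset.sum_add_distrib]
    have h10 : ∑ k ∈ Finset.range (n + 1), (if k ∈ Finset.range K then B ^ 2 else 0) ≤
        K * B ^ 2 := by
      rw [Finset.sum_ite_mem, Finset.sum_const, nsmul_eq_mul]
      apply mul_le_mul_of_nonneg_right _ (by positivity)
      have : (Finset.range (n + 1) ∩ Finset.range K).card ≤ K := by
        refine (Finset.card_le_card Finset.inter_subset_right).trans ?_
        rw [Finset.card_range]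
      exact_mod_cast this
    have h11 : ∑ k ∈ Finset.range (n + 1), (if n - k ∈ Finset.range K then B ^ 2 else 0) =
        ∑ k ∈ Finset.range (n + 1), (if k ∈ Finset.range K then B ^ 2 else 0) := by
      have h12 := Finset.sum_range_reflect (fun k => if k ∈ Finset.range K then B ^ 2 else 0) (n + 1)
      rw [← h12]
      apply Finset.sum_congr rfl
      intro k _
      rw [show n + 1 - 1 - k = n - k by omega]
    rw [h11]
    linarith
  have h7 := (abs_le.1 h2).1
  have h8 := (abs_le.1 h1).1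
  -- combine
  have h9 : (1 - 2 * e - 3 * e ^ 2) * n - c ^ 2 - 2 * K * B ^ 2 ≤
      ∑ k ∈ Finset.range (n + 1), d k * d (n - k) := by
    rw [h3, h5]
    have h10 : (1 - e) * n ≤ ∑ k ∈ Finset.range (n + 1), d k := by linarith
    have h11 : 2 * c * ((1 - e) * n) ≤ 2 * c * ∑ k ∈ Finset.range (n + 1), d k :=
      mul_le_mul_of_nonneg_left h10 (by rw [hc]; linarith)
    have h12 : 2 * c * ((1 - e) * n) - (n + 1) * c ^ 2 =
        (1 - 2 * e - 3 * e ^ 2) * n - c ^ 2 := by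
      rw [hc]; ring
    linarith
  have hn0 : (0 : ℝ) ≤ n := Nat.cast_nonneg n
  have h10 : (1 - 7 * e) * ((n : ℝ) + 1) ≤ ((n : ℝ) + 1) * d (n + 1) := by
    have h11 : c ^ 2 ≤ 4 := by rw [hc]; nlinarith
    have h12 : (1 - 6 * e) * n ≤ (1 - 2 * e - 3 * e ^ 2) * n - e * n := by
      have : e ^ 2 ≤ e := by nlinarith
      nlinarith
    rw [hC] at b3
    nlinarith
  have h11 : (0 : ℝ) < (n : ℝ) + 1 := by linarith
  rw [mul_comm] at h10
  exact le_of_mul_le_mul_left h10 h11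

/-- TARGET -/
theorem tauberT (d : ℕ → ℝ) (hd : ∀ n, 0 ≤ d n)
    (hD : Tendsto (fun n : ℕ => (∑ k ∈ Finset.range (n + 1), d k) / (n : ℝ)) atTop (𝓝 1))
    (hq : ∀ n, 1 ≤ n → 0.6 * d (n + 1) ≤ d n)
    (he : ∀ ε : ℝ, 0 < ε → ∃ N0 : ℕ, ∀ n : ℕ, N0 ≤ n → ∀ w : ℝ, (∀ k ≤ n, d k ≤ w) →
      |((n : ℝ) + 1) * d (n + 1) - ∑ k ∈ Finset.range (n + 1), d k * d (n - k)| ≤ ε * n * w) :
    Tendsto d atTop (𝓝 1) := by
  obtain ⟨w0, hw0, hdw⟩ := tauberT_bdd d hd hD hq he
  rw [Metric.tendsto_atTop]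
  intro e he0
  obtain ⟨e', he'⟩ : ∃ e' : ℝ, e' = min 1 (e / 8) := ⟨_, rfl⟩
  have he'0 : 0 < e' := by rw [he']; positivity
  have he'1 : e' ≤ 1 := by rw [he']; exact min_le_left _ _
  have he'2 : e' ≤ e / 8 := by rw [he']; exact min_le_right _ _
  obtain ⟨K, hK⟩ := tauberT_up d hd hD hq he w0 hw0 hdw e' he'0
  obtain ⟨K', hK'⟩ := tauberT_low d hd hD he w0 hw0 hdw e' he'0 he'1 K hK
  refine ⟨max K K', fun n hn => ?_⟩
  have h1 := hK n ((le_max_left _ _).trans hn)
  have h2 := hK' n ((le_max_right _ _).trans hn)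
  rw [Real.dist_eq, abs_lt]
  constructor <;> linarith

end Pool.Agent.Helper101.Srt
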